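import Pool.Agent.H74.ID.Defs

/-! Rosenthal's theorem: a bounded family behaving like the unit vectors of `c_0(S)` in an
injective Banach space forces the space to have at least `2 ^ #S` elements. -/

open Cardinal
open scoped ENNReal

namespace Pool.H74.ID

/-- the indicator function of `A`, as an element of `ℓ_∞(S)` -/
noncomputable def ind (𝕜 : Type) [RCLike 𝕜] {S : Type} (A : Set S) : LInf 𝕜 S :=
  ⟨fun s => A.indicator (fun _ => (1 : 𝕜)) s, memℓp_infty ⟨1, by
    rintro _ ⟨i, rfl⟩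
    by_cases h : i ∈ A
    · simp [h]
    · simp [h]⟩⟩

theorem ind_apply (𝕜 : Type) [RCLike 𝕜] {S : Type} (A : Set S) (s : S) :
    ind 𝕜 A s = A.indicator (fun _ => (1 : 𝕜)) s := rfl

theorem finsupp_apply {𝕜 : Type} [RCLike 𝕜] {S : Type} (a : S →₀ 𝕜) (s : S) :
    (Finsupp.linearCombination 𝕜 (fun s : S => ind 𝕜 ({s} : Set S)) a) s = a s := by
  classical
  rw [Finsupp.linearCombination_apply, Finsupp.sum, lp.coeFn_sum, Finset.sum_apply]
  have h : ∀ i ∈ a.support, (a i • ind 𝕜 ({i} : Set S)) s = if i = s then a i else 0 := by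
    intro i _
    rw [lp.coeFn_smul, Pi.smul_apply, ind_apply]
    by_cases h : i = s
    · subst h; simp
    · have : s ∉ ({i} : Set S) := by
        simp only [Set.mem_singleton_iff]; exact fun h' => h h'.symm
      simp [h, this]
  rw [Finset.sum_congr rfl h, Finset.sum_ite_eq']
  split_ifs with h2
  · rfl
  · simpa using (Finsupp.notMem_support_iff.1 h2).symm

/-- an operator into an injective space with prescribed values on the unit vectors -/
theorem exists_operator {𝕜 : Type} [RCLike 𝕜] {X : Type} [NormedAddCommGroup X]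
    [NormedSpace 𝕜 X] [CompleteSpace X] (hX : Inj 𝕜 X) {S : Type} (x : S → X) (C : ℝ)
    (hup : ∀ (F : Finset S) (a : S → 𝕜), (∀ s, ‖a s‖ ≤ 1) → ‖∑ s ∈ F, a s • x s‖ ≤ C) :
    ∃ T : LInf 𝕜 S →L[𝕜] X, ∀ s, T (ind 𝕜 {s}) = x s := by
  classical
  let φ : (S →₀ 𝕜) →ₗ[𝕜] LInf 𝕜 S := Finsupp.linearCombination 𝕜 (fun s : S => ind 𝕜 ({s} : Set S))
  let ψ : (S →₀ 𝕜) →ₗ[𝕜] X := Finsupp.linearCombination 𝕜 x
  let M : Submodule 𝕜 (LInf 𝕜 S) := (LinearMap.range φ).topologicalClosure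
  have hφM : ∀ a, φ a ∈ M := fun a =>
    Submodule.le_topologicalClosure _ (LinearMap.mem_range_self φ a)
  let e : (S →₀ 𝕜) →ₗ[𝕜] M := φ.codRestrict M hφM
  have hnorm : ∀ a, ‖ψ a‖ ≤ C * ‖e a‖ := by
    intro a
    have he : ‖e a‖ = ‖φ a‖ := rfl
    rw [he]
    by_cases h0 : φ a = 0
    · have ha : a = 0 := by
        ext s
        rw [← finsupp_apply a s]
        show (φ a) s = _
        rw [h0]; rfl
      rw [ha]; simp
    · have ht : 0 < ‖φ a‖ := norm_pos_iff.2 h0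
      have h1 := hup a.support (fun s => ((‖φ a‖ : ℝ) : 𝕜)⁻¹ * a s) (by
        intro s
        rw [norm_mul, norm_inv, RCLike.norm_ofReal, abs_of_pos ht, ← finsupp_apply a s]
        have : ‖(φ a) s‖ ≤ ‖φ a‖ := lp.norm_apply_le_norm (by simp) _ s
        rw [inv_mul_le_iff₀ ht, mul_one]
        exact this)
      have h2 : ∑ s ∈ a.support, (((‖φ a‖ : ℝ) : 𝕜)⁻¹ * a s) • x s
          = ((‖φ a‖ : ℝ) : 𝕜)⁻¹ • ψ a := by
        have h3 : ψ a = ∑ s ∈ a.support, a s • x s := by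
          show Finsupp.linearCombination 𝕜 x a = _
          rw [Finsupp.linearCombination_apply, Finsupp.sum]
        rw [h3, Finset.smul_sum]
        refine Finset.sum_congr rfl fun s _ => ?_
        rw [mul_smul]
      rw [h2, norm_smul, norm_inv, RCLike.norm_ofReal, abs_of_pos ht, inv_mul_le_iff₀ ht] at h1
      linarith [mul_comm ‖φ a‖ C]
  have hdense : DenseRange e := by
    intro m
    rw [closure_subtype]
    have h1 : (Subtype.val '' (Set.range e) : Set (LInf 𝕜 S)) = (LinearMap.range φ : Set _) := by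
      ext y
      constructor
      · rintro ⟨_, ⟨a, rfl⟩, rfl⟩
        exact ⟨a, rfl⟩
      · rintro ⟨a, rfl⟩
        exact ⟨e a, ⟨a, rfl⟩, rfl⟩
    rw [h1]
    have := m.2
    rwa [← SetLike.mem_coe, Submodule.topologicalClosure_coe] at this
  let f : M →L[𝕜] X := ψ.extendOfNorm e
  obtain ⟨g, hg⟩ := hX (LInf 𝕜 S) M (Submodule.isClosed_topologicalClosure _) f
  refine ⟨g, fun s => ?_⟩
  have h1 := hg (e (Finsupp.single s 1))
  have h2 : f (e (Finsupp.single s 1)) = ψ (Finsupp.single s 1) :=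
    LinearMap.extendOfNorm_eq hdense ⟨C, hnorm⟩ _
  have h3 : ((e (Finsupp.single s 1) : M) : LInf 𝕜 S) = ind 𝕜 {s} := by
    show φ (Finsupp.single s 1) = _
    simp [φ]
  rw [h3, h2] at h1
  rw [h1]
  simp [ψ]

theorem exists_phase {𝕜 : Type} [RCLike 𝕜] (z w : 𝕜) :
    ∃ θ : 𝕜, ‖θ‖ ≤ 1 ∧ ‖z + θ * w‖ = ‖z‖ + ‖w‖ := by
  by_cases hw : w = 0
  · exact ⟨0, by simp, by simp [hw]⟩
  by_cases hz : z = 0
  · exact ⟨1, by simp, by simp [hz]⟩
  have hz' : 0 < ‖z‖ := norm_pos_iff.2 hz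
  have hw' : 0 < ‖w‖ := norm_pos_iff.2 hw
  have hz'' : ((‖z‖ : ℝ) : 𝕜) ≠ 0 := by exact_mod_cast hz'.ne'
  refine ⟨z * ((‖z‖ : ℝ) : 𝕜)⁻¹ * (((‖w‖ : ℝ) : 𝕜) * w⁻¹), ?_, ?_⟩
  · rw [norm_mul, norm_mul, norm_mul, norm_inv, norm_inv, RCLike.norm_ofReal, RCLike.norm_ofReal,
      abs_of_pos hz', abs_of_pos hw', mul_inv_cancel₀ hz'.ne', mul_inv_cancel₀ hw'.ne']
    norm_num
  · have e : z + z * ((‖z‖ : ℝ) : 𝕜)⁻¹ * (((‖w‖ : ℝ) : 𝕜) * w⁻¹) * w
        = z * ((‖z‖ : ℝ) : 𝕜)⁻¹ * (((‖z‖ + ‖w‖ : ℝ)) : 𝕜) := by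
      push_cast
      field_simp
    rw [e, norm_mul, norm_mul, norm_inv, RCLike.norm_ofReal, RCLike.norm_ofReal, abs_of_pos hz',
      mul_inv_cancel₀ hz'.ne', one_mul, abs_of_pos (by positivity)]

/-- `|μ f| ≤ r` for all `f` in the unit ball of `ℓ_∞(S)` supported in `J` -/
def Bdd {𝕜 : Type} [RCLike 𝕜] {S : Type} (μ : LInf 𝕜 S →L[𝕜] 𝕜) (J : Set S) (r : ℝ) : Prop :=
  ∀ f : LInf 𝕜 S, (∀ i, i ∉ J → f i = 0) → ‖f‖ ≤ 1 → ‖μ f‖ ≤ r

/-- Rosenthal's disjointification. -/
theorem disjointify {𝕜 : Type} [RCLike 𝕜] {S : Type} [Infinite S] (μ : S → LInf 𝕜 S →L[𝕜] 𝕜)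
    (ε : ℝ) (hε : 0 < ε) (n : ℕ) : ∀ J₀ : Set S, #J₀ = #S → (∀ s ∈ J₀, Bdd (μ s) J₀ (n * ε)) →
    ∃ J : Set S, J ⊆ J₀ ∧ #J = #S ∧ ∀ s ∈ J, Bdd (μ s) (J \ {s}) ε := by
  classical
  induction n with
  | zero =>
    intro J₀ hJ₀ h
    refine ⟨J₀, le_rfl, hJ₀, fun s hs f hf hf1 => ?_⟩
    have := h s hs f (fun i hi => hf i (fun h' => hi h'.1)) hf1
    simp only [Nat.cast_zero, zero_mul] at this
    linarith
  | succ n ih =>
    intro J₀ hJ₀ h
    have hSS : #S = #(S × S) := by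
      rw [mk_prod, lift_id, mul_eq_self (aleph0_le_mk S)]
    obtain ⟨E⟩ : Nonempty (J₀ ≃ S × S) := Cardinal.eq.1 (hJ₀.trans hSS)
    let P : S → Set S := fun a => {j | ∃ hj : j ∈ J₀, (E ⟨j, hj⟩).1 = a}
    have hP0 : ∀ a, P a ⊆ J₀ := by
      rintro a j ⟨hj, _⟩
      exact hj
    have hPcard : ∀ a, #(P a) = #S := by
      intro a
      apply le_antisymm
      · exact mk_set_le _
      · refine mk_le_of_injective (f := fun b : S => (⟨(E.symm (a, b)).1, (E.symm (a, b)).2, by simp⟩ : P a)) ?_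
        intro b b' hb
        simp only [Subtype.mk.injEq] at hb
        have := E.symm.injective (Subtype.ext hb)
        simpa using this
    by_cases hgood : ∃ a, ∀ s ∈ P a, Bdd (μ s) (P a \ {s}) ε
    · obtain ⟨a, ha⟩ := hgood
      exact ⟨P a, hP0 a, hPcard a, ha⟩
    push Not at hgood
    choose s hs hbad using hgood
    have hbad' : ∀ a, ∃ f : LInf 𝕜 S, (∀ i, i ∉ P a \ {s a} → f i = 0) ∧ ‖f‖ ≤ 1 ∧ ε < ‖μ (s a) f‖ := by
      intro a
      have := hbad a
      unfold Bdd at this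
      push Not at this
      exact this
    choose F hF1 hF2 hF3 using hbad'
    have hsinj : Function.Injective s := by
      intro a b hab
      obtain ⟨h1, h2⟩ := hs a
      obtain ⟨h3, h4⟩ := hs b
      rw [← h2, ← h4]
      congr 2
      exact Subtype.ext hab
    have hJ1 : Set.range s ⊆ J₀ := by
      rintro _ ⟨a, rfl⟩
      exact hP0 a (hs a)
    obtain ⟨J, hJ, hJc, hJb⟩ := ih (Set.range s) (mk_range_eq s hsinj) (by
      rintro _ ⟨a, rfl⟩ g hg hg1
      obtain ⟨θ, hθ1, hθ2⟩ := exists_phase (μ (s a) g) (μ (s a) (F a))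
      have hdisj : ∀ i, g i = 0 ∨ F a i = 0 := by
        intro i
        by_cases hi : i ∈ Set.range s
        · right
          obtain ⟨b, rfl⟩ := hi
          apply hF1
          rintro ⟨h1, h2⟩
          obtain ⟨h3, h4⟩ := h1
          obtain ⟨h5, h6⟩ := hs b
          apply h2
          have : b = a := h6.symm.trans h4
          rw [this]; rfl
        · left
          exact hg i hi
      have h1 : ‖g + θ • F a‖ ≤ 1 := by
        apply lp.norm_le_of_forall_le (by norm_num)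
        intro i
        rw [lp.coeFn_add, Pi.add_apply, lp.coeFn_smul, Pi.smul_apply, smul_eq_mul]
        rcases hdisj i with h | h
        · rw [h, zero_add, norm_mul]
          have : ‖F a i‖ ≤ ‖F a‖ := lp.norm_apply_le_norm (by simp) _ i
          have h3 := hF2 a
          calc ‖θ‖ * ‖F a i‖ ≤ 1 * 1 := by
                apply mul_le_mul hθ1 (this.trans h3) (norm_nonneg _) (by norm_num)
            _ = 1 := by norm_num
        · rw [h, mul_zero, add_zero]
          exact (lp.norm_apply_le_norm (by simp) _ i).trans hg1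
      have h2 := h (s a) (hP0 a (hs a)) (g + θ • F a) (by
        intro i hi
        rw [lp.coeFn_add, Pi.add_apply, lp.coeFn_smul, Pi.smul_apply, smul_eq_mul,
          hg i (fun h' => hi (hJ1 h')), hF1 a i (fun h' => hi (hP0 a h'.1))]
        simp) h1
      rw [map_add, map_smul, smul_eq_mul, hθ2] at h2
      have h3 := hF3 a
      push_cast at h2
      linarith)
    exact ⟨J, hJ.trans hJ1, hJc, hJb⟩

theorem rosenthal {𝕜 : Type} [RCLike 𝕜] {X : Type} [NormedAddCommGroup X] [NormedSpace 𝕜 X]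
    [CompleteSpace X] (hX : Inj 𝕜 X) {S : Type} [Infinite S] (x : S → X) (c C : ℝ) (hc : 0 < c)
    (hlow : ∀ s, c ≤ ‖x s‖)
    (hup : ∀ (F : Finset S) (a : S → 𝕜), (∀ s, ‖a s‖ ≤ 1) → ‖∑ s ∈ F, a s • x s‖ ≤ C) :
    2 ^ #S ≤ #X := by
  classical
  obtain ⟨T, hT⟩ := exists_operator hX x C hup
  have hdual : ∀ s, ∃ g : X →L[𝕜] 𝕜, ‖g‖ = 1 ∧ g (x s) = ‖x s‖ := fun s =>
    exists_dual_vector 𝕜 (x s) (by
      intro h0
      have := hlow s
      rw [h0] at this
      linarith)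
  choose g hg1 hg2 using hdual
  let μ : S → LInf 𝕜 S →L[𝕜] 𝕜 := fun s => (g s).comp T
  obtain ⟨n, hn⟩ := exists_nat_ge (‖T‖ / (c / 2))
  obtain ⟨J, -, hJc, hJ⟩ := disjointify μ (c / 2) (by positivity) n Set.univ mk_univ (by
    intro s _ f _ hf
    have h1 : ‖μ s f‖ ≤ ‖g s‖ * (‖T‖ * ‖f‖) := by
      refine ((g s).le_opNorm _).trans ?_
      exact mul_le_mul_of_nonneg_left (T.le_opNorm _) (norm_nonneg _)
    rw [hg1, one_mul] at h1
    have h2 : ‖T‖ * ‖f‖ ≤ ‖T‖ := by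
      have := mul_le_mul_of_nonneg_left hf (norm_nonneg T)
      linarith
    have h3 : ‖T‖ ≤ n * (c / 2) := by
      rwa [div_le_iff₀ (by positivity)] at hn
    linarith)
  rw [← hJc, ← mk_set]
  -- the injection
  have key : ∀ A A' : Set J, T (ind 𝕜 (Subtype.val '' A)) = T (ind 𝕜 (Subtype.val '' A')) → A ⊆ A' := by
    intro A A' h s hsA
    by_contra hsA'
    set f : LInf 𝕜 S := ind 𝕜 (Subtype.val '' (A \ {s})) - ind 𝕜 (Subtype.val '' A') with hf
    have e1 : ind 𝕜 (Subtype.val '' A : Set S) = ind 𝕜 ({s.1} : Set S) + ind 𝕜 (Subtype.val '' (A \ {s})) := by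
      ext i
      rw [lp.coeFn_add, Pi.add_apply, ind_apply, ind_apply, ind_apply]
      simp only [Set.indicator_apply]
      by_cases hi : i = s.1
      · subst hi
        have h1 : s.1 ∈ (Subtype.val '' A : Set S) := ⟨s, hsA, rfl⟩
        have h2 : s.1 ∉ (Subtype.val '' (A \ {s}) : Set S) := by
          rintro ⟨t, ⟨_, ht⟩, hts⟩
          exact ht (Subtype.ext hts)
        simp only [h1, h2, if_true, if_false, Set.mem_singleton_iff, add_zero]
      · have h2 : i ∈ (Subtype.val '' A : Set S) ↔ i ∈ (Subtype.val '' (A \ {s}) : Set S) := by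
          constructor
          · rintro ⟨t, ht, rfl⟩
            exact ⟨t, ⟨ht, fun h' => hi (congrArg Subtype.val h')⟩, rfl⟩
          · rintro ⟨t, ht, rfl⟩
            exact ⟨t, ht.1, rfl⟩
        simp only [h2, Set.mem_singleton_iff, hi, if_false, zero_add]
    have h2 : μ s.1 f = - (‖x s.1‖ : 𝕜) := by
      show (g s.1) (T f) = _
      have h3 : T f = - x s.1 := by
        rw [hf, map_sub, ← h, e1, map_add, hT]
        abel
      rw [h3, map_neg, hg2]
    have h4 := hJ s.1 s.2 f (by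
      intro i hi
      rw [hf, lp.coeFn_sub, Pi.sub_apply, ind_apply, ind_apply]
      have h5 : i ∉ (Subtype.val '' (A \ {s}) : Set S) := by
        rintro ⟨t, ⟨_, ht⟩, rfl⟩
        exact hi ⟨t.2, fun h' => ht (Subtype.ext h')⟩
      have h6 : i ∉ (Subtype.val '' A' : Set S) := by
        rintro ⟨t, ht, rfl⟩
        refine hi ⟨t.2, fun h' => hsA' ?_⟩
        have : t = s := Subtype.ext h'
        rwa [this] at ht
      simp only [Set.indicator_apply, h5, h6, if_false, sub_zero]) (by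
      apply lp.norm_le_of_forall_le (by norm_num)
      intro i
      rw [hf, lp.coeFn_sub, Pi.sub_apply, ind_apply, ind_apply]
      simp only [Set.indicator_apply]
      split_ifs <;> simp)
    rw [h2, norm_neg, RCLike.norm_ofReal, abs_of_nonneg (norm_nonneg _)] at h4
    have := hlow s.1
    linarith
  refine mk_le_of_injective (f := fun A : Set J => T (ind 𝕜 (Subtype.val '' A))) ?_
  intro A A' h
  exact Set.Subset.antisymm (key A A' h) (key A' A h.symm)

end Pool.H74.ID
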