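import Pool.Agent.H74.ID.Step

/-! The injective dimension of `c_0`. -/

open Cardinal
open scoped ENNReal ZeroAtInfty

namespace Pool.H74.ID

variable {𝕜 : Type} [RCLike 𝕜]

theorem sm_base : Sm 𝕜 0 C₀(ℕ, 𝕜) := by
  have h0 : ℵ_ ((0 : ℕ) : Ordinal.{0}) = ℵ₀ := by simp
  have hfin : ∀ v : V 𝕜 0 ℕ, ∀ ε : ℝ, 0 < ε → {i : ℕ | ε ≤ ‖(v : LInf 𝕜 ℕ) i‖}.Finite := by
    intro v ε hε
    have h1 := (mem_V (v : LInf 𝕜 ℕ)).1 v.2 ε hε
    rw [h0] at h1
    exact lt_aleph0_iff_set_finite.1 h1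
  let T : V 𝕜 0 ℕ →ₗ[𝕜] C₀(ℕ, 𝕜) :=
    { toFun := fun v =>
        { toFun := fun i => (v : LInf 𝕜 ℕ) i
          continuous_toFun := continuous_of_discreteTopology
          zero_at_infty' := by
            rw [Metric.tendsto_nhds]
            intro ε hε
            rw [Filter.cocompact_eq_cofinite, Filter.eventually_cofinite]
            refine (hfin v ε hε).subset ?_
            intro i hi
            simpa using hi }
      map_add' := fun v w => by
        ext i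
        simp
      map_smul' := fun c v => by
        ext i
        simp }
  have hT : ∀ v, ‖T v‖ ≤ 1 * ‖v‖ := by
    intro v
    rw [one_mul, ← ZeroAtInftyContinuousMap.norm_toBCF_eq_norm,
      BoundedContinuousFunction.norm_le (norm_nonneg _)]
    intro i
    exact lp.norm_apply_le_norm (by simp) (v : LInf 𝕜 ℕ) i
  have hb : ∀ (x : C₀(ℕ, 𝕜)) (i : ℕ), ‖x i‖ ≤ ‖x‖ := by
    intro x i
    rw [← ZeroAtInftyContinuousMap.norm_toBCF_eq_norm]
    exact x.toBCF.norm_coe_le_norm i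
  let R : C₀(ℕ, 𝕜) →ₗ[𝕜] LInf 𝕜 ℕ :=
    { toFun := fun x => ⟨fun i => x i, memℓp_infty ⟨‖x‖, by
        rintro _ ⟨i, rfl⟩
        exact hb x i⟩⟩
      map_add' := fun x y => by
        apply lp.ext
        funext i
        simp
      map_smul' := fun c x => by
        apply lp.ext
        funext i
        simp }
  have hR : ∀ x, ‖R x‖ ≤ 1 * ‖x‖ := by
    intro x
    rw [one_mul]
    exact lp.norm_le_of_forall_le (norm_nonneg _) fun i => hb x i
  refine ⟨ℕ, T.mkContinuous 1 hT, R.mkContinuous 1 hR, by rw [mk_nat, h0], fun v => rfl, ?_⟩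
  intro D hD
  refine ⟨D, le_rfl, fun x => ?_⟩
  have hDinf : D.Infinite := by
    rw [h0, aleph0_le_mk_iff] at hD
    exact Set.infinite_coe_iff.1 hD
  have h1 : {i : ℕ | 1 / 2 ≤ ‖x i‖}.Finite := by
    have h2 := x.zero_at_infty'
    rw [Metric.tendsto_nhds] at h2
    have h3 := h2 (1 / 2) (by norm_num)
    rw [Filter.cocompact_eq_cofinite, Filter.eventually_cofinite] at h3
    refine h3.subset ?_
    intro i hi
    simpa using hi
  obtain ⟨i, hiD, hi⟩ := (hDinf.sdiff h1).nonempty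
  refine ⟨i, hiD, ?_⟩
  have h4 : ‖x i‖ < 1 / 2 := by
    by_contra hcon
    exact hi (not_lt.1 hcon)
  rw [ind_apply, Set.indicator_of_mem hiD]
  have h5 : ‖(1 : 𝕜)‖ ≤ ‖1 - x i‖ + ‖x i‖ := by
    have : (1 : 𝕜) = (1 - x i) + x i := by ring
    conv_lhs => rw [this]
    exact norm_add_le _ _
  rw [norm_one] at h5
  show 1 / 3 ≤ ‖1 - x i‖
  linarith

theorem main1 (N : ℕ) : ∀ (k : ℕ) (X : Type) [NormedAddCommGroup X] [NormedSpace 𝕜 X]
    [CompleteSpace X], Sm 𝕜 k X →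
    (∀ i : ℕ, k ≤ i → i < k + N → (2 : Cardinal.{0}) ^ ℵ_ (i : Ordinal.{0}) <
      2 ^ ℵ_ ((i + 1 : ℕ) : Ordinal.{0})) → ¬ InjDimLE 𝕜 N X := by
  induction N with
  | zero =>
    intro k X _ _ _ hX _ h
    exact noninj hX h
  | succ N ih =>
    intro k X _ _ _ hX hlt h
    obtain ⟨G, S, _, _, _, _, _, _, j, q, hG, hs, hS, -⟩ := sm_step hX
    exact ih (k + 1) S (hS (hlt k le_rfl (by omega)))
      (fun i hi1 hi2 => hlt i (by omega) (by omega)) (injDimLE_quot enoughInj N h hs hG)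

theorem main2 (N : ℕ) (μ : Cardinal.{0}) : ∀ (k : ℕ) (X : Type) [NormedAddCommGroup X]
    [NormedSpace 𝕜 X] [CompleteSpace X], Sm 𝕜 k X →
    (∀ i : ℕ, k ≤ i → i < k + N → (2 : Cardinal.{0}) ^ ℵ_ (i : Ordinal.{0}) <
      2 ^ ℵ_ ((i + 1 : ℕ) : Ordinal.{0})) →
    (∀ I : Type, #I = ℵ_ ((k + N : ℕ) : Ordinal.{0}) →
      HasAD (ℵ_ ((k + N : ℕ) : Ordinal.{0})) μ I) →
    (2 : Cardinal.{0}) ^ ℵ_ ((k + N : ℕ) : Ordinal.{0}) < 2 ^ μ → ¬ InjDimLE 𝕜 (N + 1) X := by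
  induction N with
  | zero =>
    intro k X _ _ _ hX _ hAD hlt2 h
    obtain ⟨G, S, _, _, _, _, _, _, j, q, hG, hs, -, hS⟩ := sm_step hX
    exact hS μ hAD hlt2 (injDimLE_quot enoughInj 0 h hs hG)
  | succ N ih =>
    intro k X _ _ _ hX hlt hAD hlt2 h
    obtain ⟨G, S, _, _, _, _, _, _, j, q, hG, hs, hS, -⟩ := sm_step hX
    have e : k + (N + 1) = k + 1 + N := by omega
    rw [e] at hAD hlt2
    exact ih (k + 1) S (hS (hlt k le_rfl (by omega)))
      (fun i hi1 hi2 => hlt i (by omega) (by omega)) hAD hlt2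
      (injDimLE_quot enoughInj (N + 1) h hs hG)

/-- `E 0 → E 1 → ⋯` is an injective resolution of `X`. -/
structure IsInjRes (𝕜 : Type) [RCLike 𝕜] (X : Type) [NormedAddCommGroup X] [NormedSpace 𝕜 X]
    (E : ℕ → Type) [∀ n, NormedAddCommGroup (E n)] [∀ n, NormedSpace 𝕜 (E n)]
    [∀ n, CompleteSpace (E n)] (e : X →L[𝕜] E 0) (d : ∀ n, E n →L[𝕜] E (n + 1)) : Prop where
  inj : ∀ n, Inj 𝕜 (E n)
  mono : Function.Injective e
  exact_zero : ∀ z : E 0, d 0 z = 0 ↔ ∃ x, e x = z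
  exact_succ : ∀ (n : ℕ) (z : E (n + 1)), d (n + 1) z = 0 ↔ ∃ w, d n w = z

/-- Some Banach space `Y` has a nonzero `n+1`-st cohomology of `Hom(Y, E)`, i.e.
`Ext^(n+1)(Y, X) ≠ 0` when `E` is an injective resolution of `X`. -/
def ExtNeZero (𝕜 : Type) [RCLike 𝕜]
    (E : ℕ → Type) [∀ n, NormedAddCommGroup (E n)] [∀ n, NormedSpace 𝕜 (E n)]
    [∀ n, CompleteSpace (E n)] (d : ∀ n, E n →L[𝕜] E (n + 1)) (n : ℕ) : Prop :=
  ∃ (Y : Type) (_ : NormedAddCommGroup Y) (_ : NormedSpace 𝕜 Y) (_ : CompleteSpace Y)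
    (f : Y →L[𝕜] E (n + 1)), (∀ y, d (n + 1) (f y) = 0) ∧
      ¬ ∃ g : Y →L[𝕜] E n, ∀ y, d n (g y) = f y

theorem ext_ne_zero {X : Type} [NormedAddCommGroup X] [NormedSpace 𝕜 X] [CompleteSpace X]
    (E : ℕ → Type) [∀ n, NormedAddCommGroup (E n)] [∀ n, NormedSpace 𝕜 (E n)]
    [∀ n, CompleteSpace (E n)] (e : X →L[𝕜] E 0) (d : ∀ n, E n →L[𝕜] E (n + 1))
    (h : IsInjRes 𝕜 X E e d) (N : ℕ) (hN : ¬ InjDimLE 𝕜 N X) : ExtNeZero 𝕜 E d N := by
  let Z : ∀ n, Submodule 𝕜 (E n) := fun n => LinearMap.ker (d n).toLinearMap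
  have hZc : ∀ n, IsClosed (Z n : Set (E n)) := fun n => (d n).isClosed_ker
  have hZcomp : ∀ n, CompleteSpace (Z n) := fun n => (hZc n).completeSpace_coe
  have hZd : ∀ n (w : E n), d n w ∈ Z (n + 1) := by
    intro n w
    exact (h.exact_succ n (d n w)).2 ⟨w, rfl⟩
  let q : ∀ n, E n →L[𝕜] Z (n + 1) := fun n => (d n).codRestrict (Z (n + 1)) (hZd n)
  have hs : ∀ n, SES (Z n).subtypeL (q n) := by
    intro n
    refine ⟨Subtype.val_injective, ?_, ?_⟩
    · rintro ⟨z, hz⟩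
      obtain ⟨w, hw⟩ := (h.exact_succ n z).1 hz
      exact ⟨w, Subtype.ext hw⟩
    · intro w
      constructor
      · intro hw
        have h1 : d n w = 0 := congrArg Subtype.val hw
        exact ⟨⟨w, h1⟩, rfl⟩
      · rintro ⟨x, rfl⟩
        exact Subtype.ext x.2
  -- `Z 0` is `X`
  have h0 : ∀ N, InjDimLE 𝕜 N (Z 0) → InjDimLE 𝕜 N X := by
    intro N hN
    have he : ∀ x, e x ∈ Z 0 := fun x => (h.exact_zero _).2 ⟨x, rfl⟩
    let e0 : X →L[𝕜] Z 0 := e.codRestrict (Z 0) he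
    have hinj : Function.Injective e0 := fun x y hxy => h.mono (congrArg Subtype.val hxy)
    have hsurj : Function.Surjective e0 := by
      rintro ⟨z, hz⟩
      obtain ⟨x, hx⟩ := (h.exact_zero z).1 hz
      exact ⟨x, Subtype.ext hx⟩
    let eq : X ≃L[𝕜] Z 0 := ContinuousLinearEquiv.ofBijective e0
      (LinearMap.ker_eq_bot.2 hinj) (LinearMap.range_eq_top.2 hsurj)
    have hF : Inj 𝕜 (E 0) := h.inj 0
    exact injDimLE_retr enoughInj N (Z 0) (E 0) X hN hF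
      ((ContinuousLinearMap.inl 𝕜 (Z 0) (E 0)).comp (eq : X →L[𝕜] Z 0))
      ((eq.symm : Z 0 →L[𝕜] X).comp (ContinuousLinearMap.fst 𝕜 (Z 0) (E 0)))
      (fun p => eq.symm_apply_apply p)
  have h1 : ∀ m N, InjDimLE 𝕜 N (Z m) → InjDimLE 𝕜 (N + m) X := by
    intro m
    induction m with
    | zero => exact fun N hN => h0 N hN
    | succ m ih =>
      intro N hN
      have h2 : InjDimLE 𝕜 (N + 1) (Z m) :=
        ⟨E m, Z (m + 1), inferInstance, inferInstance, inferInstance, inferInstance,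
          inferInstance, hZcomp (m + 1), (Z m).subtypeL, q m, h.inj m, (hs m).inj, (hs m).surj,
          (hs m).exact, hN⟩
      have h3 := ih (N + 1) h2
      have e1 : N + 1 + m = N + (m + 1) := by omega
      rwa [e1] at h3
  have h2 : ¬ Inj 𝕜 (Z N) := by
    intro hcon
    apply hN
    have := h1 N 0 hcon
    rwa [zero_add] at this
  refine ⟨Z (N + 1), inferInstance, inferInstance, hZcomp (N + 1), (Z (N + 1)).subtypeL,
    fun y => y.2, ?_⟩
  rintro ⟨g, hg⟩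
  apply h2
  -- `E N = Z N ⊕ g(Z (N+1))`
  have hmem : ∀ w : E N, w - g (q N w) ∈ Z N := by
    intro w
    show d N (w - g (q N w)) = 0
    rw [map_sub, hg]
    exact sub_self _
  let P : E N →L[𝕜] Z N := (ContinuousLinearMap.id 𝕜 (E N) - g.comp (q N)).codRestrict (Z N) hmem
  refine (h.inj N).retr (Z N).subtypeL P ?_
  intro p
  apply Subtype.ext
  show (p : E N) - g (q N p) = p
  have : q N (p : E N) = 0 := (hs N).zero p
  rw [this, map_zero, sub_zero]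

end Pool.H74.ID
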