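import Mathlib

/-! Almost disjoint families. -/

open Cardinal

namespace Pool.H74.ID

/-- There is an almost disjoint family of `μ` subsets of `I`, each of size at least `κ`, with pairwise
intersections of size less than `κ`. -/
def HasAD (κ μ : Cardinal.{0}) (I : Type) : Prop :=
  ∃ (S : Type) (A : S → Set I), #S = μ ∧ (∀ s, κ ≤ #(A s)) ∧ ∀ s t, s ≠ t → #(A s ∩ A t : Set I) < κ

theorem two_pow_le_of_lt (k : ℕ)
    (h : ∀ i < k, (2 : Cardinal.{0}) ^ ℵ_ (i : Ordinal.{0}) ≤ ℵ_ (k : Ordinal.{0}))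
    {c : Cardinal.{0}} (hc : c < ℵ_ (k : Ordinal.{0})) : 2 ^ c ≤ ℵ_ (k : Ordinal.{0}) := by
  rcases lt_or_ge c ℵ₀ with h1 | h1
  · have : (2 : Cardinal.{0}) ^ c < ℵ₀ := power_lt_aleph0 (natCast_lt_aleph0 (n := 2)) h1
    exact this.le.trans (aleph0_le_aleph _)
  · obtain ⟨o, rfl⟩ := mem_range_aleph_iff.2 h1
    rw [aleph_lt_aleph] at hc
    obtain ⟨i, rfl⟩ := Ordinal.lt_omega0.1 (hc.trans (Ordinal.natCast_lt_omega0 k))
    exact h i (by exact_mod_cast hc)

theorem hasAD_branches (k : ℕ) (h : ∀ i < k, (2 : Cardinal.{0}) ^ ℵ_ (i : Ordinal.{0}) ≤ ℵ_ (k : Ordinal.{0}))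
    (I : Type) (hI : #I = ℵ_ (k : Ordinal.{0})) :
    HasAD (ℵ_ (k : Ordinal.{0})) (2 ^ ℵ_ (k : Ordinal.{0})) I := by
  set κ := ℵ_ (k : Ordinal.{0}) with hκ
  have hκ0 : ℵ₀ ≤ κ := aleph0_le_aleph _
  let K : Type := κ.ord.ToType
  have hK : #K = κ := mk_ord_toType κ
  let I0 : Type := Σ a : K, (Set.Iio a → Bool)
  have hIio : ∀ a : K, #(Set.Iio a) < κ := fun a => by
    have h1 := mk_Iio_lt a (by rw [hK, Ordinal.type_toType])
    rwa [hK] at h1
  have hI0 : #I0 = κ := by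
    apply le_antisymm
    · have h1 : #I0 = Cardinal.sum fun a : K => (2 : Cardinal.{0}) ^ #(Set.Iio a) := by
        simp [I0, Cardinal.mk_sigma]
      rw [h1]
      calc Cardinal.sum (fun a : K => (2 : Cardinal.{0}) ^ #(Set.Iio a))
          ≤ Cardinal.sum (fun _ : K => κ) := Cardinal.sum_le_sum _ _
            (fun a => two_pow_le_of_lt k h (hIio a))
        _ = κ * κ := by simp [hK]
        _ = κ := mul_eq_self hκ0
    · rw [← hK]
      exact mk_le_of_injective (f := fun a : K => (⟨a, fun _ => false⟩ : I0)) (by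
        intro a b hab
        exact congrArg Sigma.fst hab)
  obtain ⟨e⟩ : Nonempty (I0 ≃ I) := by
    rw [← Cardinal.eq, hI0, hI]
  let R : (K → Bool) → K → I := fun f a => e ⟨a, fun x => f x⟩
  have hR : ∀ f, Function.Injective (R f) := by
    intro f a b hab
    exact congrArg Sigma.fst (e.injective hab)
  refine ⟨K → Bool, fun f => Set.range (R f), ?_, ?_, ?_⟩
  · simp [hK]
  · intro f
    rw [mk_range_eq _ (hR f), hK]
  · intro f g hfg
    obtain ⟨d, hd⟩ := Function.ne_iff.1 hfg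
    have hsub : Set.range (R f) ∩ Set.range (R g) ⊆ R f '' Set.Iic d := by
      rintro _ ⟨⟨a, rfl⟩, ⟨b, hb⟩⟩
      refine ⟨a, ?_, rfl⟩
      by_contra hlt
      have hlt : d < a := not_le.1 hlt
      have h1 := e.injective hb
      have h2 : b = a := congrArg Sigma.fst h1
      subst h2
      have h3 : (fun x : Set.Iio b => g x) = fun x : Set.Iio b => f x :=
        sigma_mk_injective h1
      exact hd (congrFun h3 ⟨d, hlt⟩).symm
    refine (mk_le_mk_of_subset hsub).trans_lt (mk_image_le.trans_lt ?_)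
    have h4 : Set.Iic d = insert d (Set.Iio d) := by
      ext x; simp [le_iff_eq_or_lt]
    rw [h4]
    refine (mk_insert_le).trans_lt ?_
    exact add_lt_of_lt hκ0 (hIio d) (one_lt_aleph0.trans_le hκ0)

end Pool.H74.ID
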