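import Mathlib

/-! Coherent families of Option-valued functions. -/

open Cardinal Set

set_option linter.unusedSectionVars false

namespace Pool.H74.ID

section Abstract

variable {K L : Type} [LinearOrder K] [WellFoundedLT K] [LinearOrder L] [WellFoundedLT L]

open Classical in
/-- The coherent family of functions `e η : Iio η → K` built from injections `f η`. -/
noncomputable def cohE (f : L → L → K) (k0 : K) : L → L → K :=
  (wellFounded_lt (α := L)).fix fun η ih ζ =>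
    if h : (Ioo ζ η).Nonempty then
      max (f η (Function.argminOn (f η) (Ioo ζ η) h))
        (ih (Function.argminOn (f η) (Ioo ζ η) h)
          (Function.argminOn_mem (f η) (Ioo ζ η) h).2 ζ)
    else k0

open Classical in
theorem cohE_eq (f : L → L → K) (k0 : K) (η ζ : L) :
    cohE f k0 η ζ = if h : (Ioo ζ η).Nonempty then
      max (f η (Function.argminOn (f η) (Ioo ζ η) h))
        (cohE f k0 (Function.argminOn (f η) (Ioo ζ η) h) ζ)
    else k0 := by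
  rw [cohE, WellFounded.fix_eq]

theorem cohE_of_nonempty (f : L → L → K) (k0 : K) (η ζ : L) (h : (Ioo ζ η).Nonempty) :
    ∃ ξ, ζ < ξ ∧ ξ < η ∧ (∀ ξ', ζ < ξ' → ξ' < η → f η ξ ≤ f η ξ') ∧
      cohE f k0 η ζ = max (f η ξ) (cohE f k0 ξ ζ) := by
  refine ⟨Function.argminOn (f η) (Ioo ζ η) h, ?_, ?_, ?_, ?_⟩
  · exact (Function.argminOn_mem (f η) (Ioo ζ η) h).1
  · exact (Function.argminOn_mem (f η) (Ioo ζ η) h).2
  · intro ξ' h1 h2
    exact Function.argminOn_le (f η) (Ioo ζ η) (a := ξ') ⟨h1, h2⟩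
  · rw [cohE_eq]
    simp only [h, dite_true]

variable {κ : Cardinal.{0}} (hκ : κ.IsRegular) (hK : ∀ a : K, #(Iio a) < κ)

include hκ hK in
theorem coh_Iic_lt (a : K) : #(Iic a) < κ := by
  have h1 : (Iic a : Set K) ⊆ Iio a ∪ {a} := by
    intro x hx
    rcases lt_or_eq_of_le (show x ≤ a from hx) with h | h
    · exact Or.inl h
    · exact Or.inr h
  refine (mk_le_mk_of_subset h1).trans_lt ((mk_union_le _ _).trans_lt ?_)
  refine add_lt_of_lt hκ.aleph0_le (hK a) ?_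
  rw [mk_singleton]
  exact hκ.nat_lt 1 |>.trans_eq' (by simp)

include hκ hK in
theorem coh_index_lt (f : L → L → K) (hf : ∀ η, InjOn (f η) (Iio η)) (η : L) (ν : K) :
    #({ξ : L | ξ < η ∧ f η ξ ≤ ν} : Set L) < κ := by
  refine lt_of_le_of_lt ?_ (coh_Iic_lt hκ hK ν)
  refine mk_le_of_injective (f := fun ξ => (⟨f η ξ.1, ξ.2.2⟩ : Iic ν)) ?_
  intro a b hab
  have : f η a.1 = f η b.1 := congrArg Subtype.val hab
  exact Subtype.ext (hf η a.2.1 b.2.1 this)

include hκ hK in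
theorem coh_small (f : L → L → K) (hf : ∀ η, InjOn (f η) (Iio η)) (k0 : K) (η : L) (ν : K) :
    #({ζ : L | ζ < η ∧ cohE f k0 η ζ ≤ ν} : Set L) < κ := by
  induction η using WellFoundedLT.induction generalizing ν with
  | ind η IH =>
    have hsub : ({ζ : L | ζ < η ∧ cohE f k0 η ζ ≤ ν} : Set L) ⊆
        {ζ : L | ζ < η ∧ ¬ (Ioo ζ η).Nonempty} ∪
          ⋃ ξ ∈ {ξ : L | ξ < η ∧ f η ξ ≤ ν}, {ζ : L | ζ < ξ ∧ cohE f k0 ξ ζ ≤ ν} := by
      rintro ζ ⟨h1, h2⟩
      by_cases h : (Ioo ζ η).Nonempty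
      · obtain ⟨ξ, h3, h4, -, h6⟩ := cohE_of_nonempty f k0 η ζ h
        rw [h6] at h2
        refine Or.inr (mem_biUnion (x := ξ) ⟨h4, (le_max_left _ _).trans h2⟩
          ⟨h3, (le_max_right _ _).trans h2⟩)
      · exact Or.inl ⟨h1, h⟩
    refine (mk_le_mk_of_subset hsub).trans_lt ((mk_union_le _ _).trans_lt ?_)
    refine add_lt_of_lt hκ.aleph0_le ?_ ?_
    · have : ({ζ : L | ζ < η ∧ ¬ (Ioo ζ η).Nonempty} : Set L).Subsingleton := by
        rintro a ⟨ha, ha'⟩ b ⟨hb, hb'⟩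
        rcases lt_trichotomy a b with h | h | h
        · exact absurd ⟨b, h, hb⟩ ha'
        · exact h
        · exact absurd ⟨a, h, ha⟩ hb'
      have h1 : #({ζ : L | ζ < η ∧ ¬ (Ioo ζ η).Nonempty} : Set L) ≤ 1 := by
        rw [mk_le_one_iff_set_subsingleton]
        exact this
      exact h1.trans_lt (by simpa using hκ.nat_lt 1)
    · rw [card_biUnion_lt_iff_forall_of_isRegular hκ (coh_index_lt hκ hK f hf η ν)]
      intro ξ hξ
      exact IH ξ hξ.1 ν

include hκ hK in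
theorem coh_coherent (f : L → L → K) (hf : ∀ η, InjOn (f η) (Iio η)) (k0 : K) (η : L) :
    ∀ ξ0 < η, #({ζ : L | ζ < ξ0 ∧ cohE f k0 η ζ ≠ cohE f k0 ξ0 ζ} : Set L) < κ := by
  induction η using WellFoundedLT.induction with
  | ind η IH =>
    intro ξ0 h0
    have hsub : ({ζ : L | ζ < ξ0 ∧ cohE f k0 η ζ ≠ cohE f k0 ξ0 ζ} : Set L) ⊆
        ⋃ ξ ∈ {ξ : L | ξ < η ∧ f η ξ ≤ f η ξ0},
          ({ζ : L | ζ < ξ ∧ ζ < ξ0 ∧ cohE f k0 ξ ζ ≠ cohE f k0 ξ0 ζ} ∪
            {ζ : L | ζ < ξ ∧ cohE f k0 ξ ζ ≤ f η ξ}) := by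
      rintro ζ ⟨h1, h2⟩
      obtain ⟨ξ, h3, h4, h5, h6⟩ := cohE_of_nonempty f k0 η ζ ⟨ξ0, h1, h0⟩
      refine mem_biUnion (x := ξ) ⟨h4, h5 ξ0 h1 h0⟩ ?_
      by_cases h7 : cohE f k0 ξ ζ ≤ f η ξ
      · exact Or.inr ⟨h3, h7⟩
      · refine Or.inl ⟨h3, h1, ?_⟩
        rw [max_eq_right (not_le.1 h7).le] at h6
        rw [← h6]
        exact h2
    refine (mk_le_mk_of_subset hsub).trans_lt ?_
    rw [card_biUnion_lt_iff_forall_of_isRegular hκ (coh_index_lt hκ hK f hf η (f η ξ0))]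
    intro ξ hξ
    refine (mk_union_le _ _).trans_lt (add_lt_of_lt hκ.aleph0_le ?_
      (coh_small hκ hK f hf k0 ξ (f η ξ)))
    rcases lt_trichotomy ξ ξ0 with h | h | h
    · refine lt_of_le_of_lt (mk_le_mk_of_subset ?_) (IH ξ0 h0 ξ h)
      rintro ζ ⟨h1, -, h3⟩
      exact ⟨h1, fun h => h3 h.symm⟩
    · subst h
      have : ({ζ : L | ζ < ξ ∧ ζ < ξ ∧ cohE f k0 ξ ζ ≠ cohE f k0 ξ ζ} : Set L) = ∅ := by
        ext ζ; simp
      rw [this, mk_eq_zero]
      exact hκ.pos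
    · refine lt_of_le_of_lt (mk_le_mk_of_subset ?_) (IH ξ hξ.1 ξ0 h)
      rintro ζ ⟨-, h2, h3⟩
      exact ⟨h2, h3⟩

open Classical in
/-- The least element of a set, if there is one. -/
noncomputable def cohPick (k0 : K) (s : Set K) : K :=
  if h : s.Nonempty then (wellFounded_lt (α := K)).min s h else k0

theorem cohPick_mem (k0 : K) (s : Set K) (h : s.Nonempty) : cohPick k0 s ∈ s := by
  rw [cohPick, dif_pos h]
  exact (wellFounded_lt (α := K)).min_mem _ h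

/-- The collapse of a set `G`: an injection of `G` into `K` defined by well founded recursion. -/
noncomputable def cohC (k0 : K) (G : Set L) : L → K :=
  (wellFounded_lt (α := L)).fix fun ξ ih =>
    cohPick k0 {a : K | ∀ ζ, (hζ : ζ < ξ) → ζ ∈ G → a ≠ ih ζ hζ}

theorem cohC_eq (k0 : K) (G : Set L) (ξ : L) :
    cohC k0 G ξ = cohPick k0 {a : K | ∀ ζ, ζ < ξ → ζ ∈ G → a ≠ cohC k0 G ζ} := by
  rw [cohC, WellFounded.fix_eq]

theorem cohC_congr (k0 : K) (G G' : Set L) (ξ : L) (h : ∀ ζ < ξ, ζ ∈ G ↔ ζ ∈ G') :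
    cohC k0 G ξ = cohC k0 G' ξ := by
  induction ξ using WellFoundedLT.induction with
  | ind ξ IH =>
    rw [cohC_eq, cohC_eq]
    congr 1
    apply Set.ext
    intro a
    constructor
    · intro H ζ h1 h2
      rw [← IH ζ h1 (fun ζ' h' => h ζ' (h'.trans h1))]
      exact H ζ h1 ((h ζ h1).2 h2)
    · intro H ζ h1 h2
      rw [IH ζ h1 (fun ζ' h' => h ζ' (h'.trans h1))]
      exact H ζ h1 ((h ζ h1).1 h2)

theorem cohC_injOn (k0 : K) (G : Set L) (hG : #G < #K) : InjOn (cohC k0 G) G := by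
  have key : ∀ ξ ζ, ζ < ξ → ζ ∈ G → cohC k0 G ξ ≠ cohC k0 G ζ := by
    intro ξ ζ h1 h2
    have hne : {a : K | ∀ ζ, ζ < ξ → ζ ∈ G → a ≠ cohC k0 G ζ}.Nonempty := by
      by_contra hcon
      have hsurj : ∀ a : K, ∃ ζ : G, cohC k0 G ζ = a := by
        intro a
        by_contra hc
        push Not at hc
        exact hcon ⟨a, fun ζ _ h4 h5 => hc ⟨ζ, h4⟩ h5.symm⟩
      exact absurd (mk_le_of_surjective (f := fun ζ : G => cohC k0 G ζ) hsurj) (not_le.2 hG)
    rw [cohC_eq k0 G ξ]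
    exact cohPick_mem k0 _ hne ζ h1 h2
  intro a ha b hb hab
  rcases lt_trichotomy a b with h | h | h
  · exact absurd hab.symm (key b a h ha)
  · exact h
  · exact absurd hab (key a b h hb)

/-- The sets `G η ν`. -/
def cohG (f : L → L → K) (k0 : K) (η : L) (ν : K) : Set L := {ζ : L | ζ < η ∧ cohE f k0 η ζ ≤ ν}

open Classical in
/-- The Option-valued functions. -/
noncomputable def cohF (f : L → L → K) (k0 : K) (η : L) (p : K × K) : Option L :=
  if h : ∃ ξ ∈ cohG f k0 η p.1, cohC k0 (cohG f k0 η p.1) ξ = p.2 then some h.choose else none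

include hκ hK in
theorem cohF_eq_some (f : L → L → K) (hf : ∀ η, InjOn (f η) (Iio η)) (k0 : K) (hKκ : #K = κ)
    (η ξ : L) (p : K × K) : cohF f k0 η p = some ξ ↔
      ξ ∈ cohG f k0 η p.1 ∧ cohC k0 (cohG f k0 η p.1) ξ = p.2 := by
  have hinj : InjOn (cohC k0 (cohG f k0 η p.1)) (cohG f k0 η p.1) :=
    cohC_injOn k0 _ (by rw [hKκ]; exact coh_small hκ hK f hf k0 η p.1)
  constructor
  · intro h
    rw [cohF] at h
    split_ifs at h with hex
    have h1 := Option.some_injective _ h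
    rw [← h1]
    exact hex.choose_spec
  · rintro ⟨h1, h2⟩
    have hex : ∃ ξ ∈ cohG f k0 η p.1, cohC k0 (cohG f k0 η p.1) ξ = p.2 := ⟨ξ, h1, h2⟩
    rw [cohF, dif_pos hex]
    congr 1
    exact hinj hex.choose_spec.1 h1 (hex.choose_spec.2.trans h2.symm)

include hκ hK in
theorem coh_bound (N : Set L) (hN : #N < κ) (hKκ : #K = κ) (g g' : L → K) :
    ∃ ν0 : K, ∀ ζ ∈ N, g ζ < ν0 ∧ g' ζ < ν0 := by
  have h1 : #(⋃ ζ ∈ N, (Iic (g ζ) ∪ Iic (g' ζ)) : Set K) < κ := by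
    rw [card_biUnion_lt_iff_forall_of_isRegular hκ hN]
    intro ζ _
    exact (mk_union_le _ _).trans_lt
      (add_lt_of_lt hκ.aleph0_le (coh_Iic_lt hκ hK _) (coh_Iic_lt hκ hK _))
  by_contra hcon
  push Not at hcon
  have h2 : (⋃ ζ ∈ N, (Iic (g ζ) ∪ Iic (g' ζ)) : Set K) = Set.univ := by
    rw [eq_univ_iff_forall]
    intro ν
    obtain ⟨ζ, h3, h4⟩ := hcon ν
    refine mem_biUnion h3 ?_
    by_cases h5 : g ζ < ν
    · exact Or.inr (h4 h5)
    · exact Or.inl (not_lt.1 h5)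
  rw [h2, mk_univ, hKκ] at h1
  exact lt_irrefl _ h1

include hκ hK in
theorem cohF_coherent (f : L → L → K) (hf : ∀ η, InjOn (f η) (Iio η)) (k0 : K) (hKκ : #K = κ)
    (η η' : L) (hη : η < η') :
    #({p : K × K | cohF f k0 η p ≠ (cohF f k0 η' p).filter (fun ξ => ξ < η)} : Set (K × K)) < κ := by
  obtain ⟨ν0, hν0⟩ := coh_bound hκ hK _ (coh_coherent hκ hK f hf k0 η' η hη) hKκ
    (cohE f k0 η) (cohE f k0 η')
  have hG : ∀ ν, ν0 ≤ ν → ∀ ζ, ζ < η → (ζ ∈ cohG f k0 η ν ↔ ζ ∈ cohG f k0 η' ν) := by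
    intro ν hν ζ hζ
    by_cases he : cohE f k0 η' ζ = cohE f k0 η ζ
    · simp only [cohG, mem_ofPred_eq, he, hζ, hζ.trans hη, true_and]
    · have := hν0 ζ ⟨hζ, he⟩
      exact iff_of_true ⟨hζ, (this.1.trans_le hν).le⟩ ⟨hζ.trans hη, (this.2.trans_le hν).le⟩
  have hsub : ({p : K × K | cohF f k0 η p ≠ (cohF f k0 η' p).filter (fun ξ => ξ < η)} :
      Set (K × K)) ⊆ ⋃ ν ∈ Iio ν0,
        ((fun ζ => ((ν, cohC k0 (cohG f k0 η ν) ζ) : K × K)) '' cohG f k0 η ν ∪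
          (fun ζ => ((ν, cohC k0 (cohG f k0 η' ν) ζ) : K × K)) '' cohG f k0 η' ν) := by
    rintro ⟨ν, α⟩ hp
    by_cases hν : ν < ν0
    · refine mem_biUnion (x := ν) hν ?_
      by_contra hcon
      apply hp
      have h1 : cohF f k0 η (ν, α) = none := by
        by_contra hc
        obtain ⟨ξ, hξ⟩ := Option.ne_none_iff_exists'.1 hc
        rw [cohF_eq_some hκ hK f hf k0 hKκ] at hξ
        exact hcon (Or.inl ⟨ξ, hξ.1, Prod.ext rfl hξ.2⟩)
      have h2 : cohF f k0 η' (ν, α) = none := by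
        by_contra hc
        obtain ⟨ξ, hξ⟩ := Option.ne_none_iff_exists'.1 hc
        rw [cohF_eq_some hκ hK f hf k0 hKκ] at hξ
        exact hcon (Or.inr ⟨ξ, hξ.1, Prod.ext rfl hξ.2⟩)
      rw [h1, h2]
      rfl
    · exfalso
      apply hp
      have hGν := hG ν (not_lt.1 hν)
      have hc : ∀ ξ < η, cohC k0 (cohG f k0 η ν) ξ = cohC k0 (cohG f k0 η' ν) ξ := by
        intro ξ hξ
        exact cohC_congr k0 _ _ ξ (fun ζ hζ => hGν ζ (hζ.trans hξ))
      apply Option.ext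
      intro ξ
      rw [Option.filter_eq_some_iff,
        cohF_eq_some hκ hK f hf k0 hKκ, cohF_eq_some hκ hK f hf k0 hKκ]
      simp only [decide_eq_true_eq]
      constructor
      · rintro ⟨h1, h2⟩
        have h3 : ξ < η := h1.1
        exact ⟨⟨(hGν ξ h3).1 h1, by rw [← hc ξ h3]; exact h2⟩, h3⟩
      · rintro ⟨⟨h1, h2⟩, h3⟩
        exact ⟨(hGν ξ h3).2 h1, by rw [hc ξ h3]; exact h2⟩
  refine (mk_le_mk_of_subset hsub).trans_lt ?_
  rw [card_biUnion_lt_iff_forall_of_isRegular hκ (hK ν0)]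
  intro ν _
  refine (mk_union_le _ _).trans_lt (add_lt_of_lt hκ.aleph0_le ?_ ?_)
  · exact mk_image_le.trans_lt (coh_small hκ hK f hf k0 η ν)
  · exact mk_image_le.trans_lt (coh_small hκ hK f hf k0 η' ν)

include hκ hK in
theorem cohF_fibre (f : L → L → K) (hf : ∀ η, InjOn (f η) (Iio η)) (k0 : K) (hKκ : #K = κ)
    (η ξ : L) (hξ : ξ < η) : κ ≤ #({p : K × K | cohF f k0 η p = some ξ} : Set (K × K)) := by
  have : Infinite K := by
    rw [← aleph0_le_mk_iff, hKκ]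
    exact hκ.aleph0_le
  have h1 : #((Iio (cohE f k0 η ξ))ᶜ : Set K) = κ := by
    rw [mk_compl_of_infinite _ (by rw [hKκ]; exact hK _), hKκ]
  rw [← h1]
  refine mk_le_of_injective (f := fun ν => (⟨(ν.1, cohC k0 (cohG f k0 η ν.1) ξ), ?_⟩ :
    {p : K × K | cohF f k0 η p = some ξ})) ?_
  · rw [mem_ofPred_eq, cohF_eq_some hκ hK f hf k0 hKκ]
    exact ⟨⟨hξ, not_lt.1 ν.2⟩, rfl⟩
  · intro a b hab
    have := congrArg (fun z => z.1.1) hab
    exact Subtype.ext this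

end Abstract

theorem exists_coherent (k : ℕ) (B : Type) (hB : #B = ℵ_ (k : Ordinal.{0})) :
    ∃ (L : Type) (_ : LinearOrder L), #L = ℵ_ ((k + 1 : ℕ) : Ordinal.{0}) ∧
      (∀ T : Set L, #T ≤ ℵ_ (k : Ordinal.{0}) → ∃ η, ∀ ξ ∈ T, ξ < η) ∧
      ∃ F : L → B → Option L,
        (∀ η b ξ, F η b = some ξ → ξ < η) ∧
        (∀ η ξ, ξ < η → ℵ_ (k : Ordinal.{0}) ≤ #{b : B // F η b = some ξ}) ∧
        (∀ η η', η < η' →
          #{b : B // F η b ≠ (F η' b).filter (fun ξ => ξ < η)} < ℵ_ (k : Ordinal.{0})) := by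
  have hreg : Cardinal.IsRegular (ℵ_ (k : Ordinal.{0})) := by
    cases k with
    | zero => simpa using isRegular_aleph0
    | succ n =>
      have := isRegular_aleph_add_one (n : Ordinal.{0})
      simpa using this
  have hreg' : Cardinal.IsRegular (ℵ_ ((k + 1 : ℕ) : Ordinal.{0})) := by
    have := isRegular_aleph_add_one (k : Ordinal.{0})
    simpa using this
  have hsucc : ℵ_ ((k + 1 : ℕ) : Ordinal.{0}) = Order.succ (ℵ_ (k : Ordinal.{0})) := by
    simp
  set κ := ℵ_ (k : Ordinal.{0}) with hκdef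
  set μ := ℵ_ ((k + 1 : ℕ) : Ordinal.{0}) with hμdef
  let K := κ.ord.ToType
  let L := μ.ord.ToType
  have hKκ : #K = κ := mk_ord_toType κ
  have hLμ : #L = μ := mk_ord_toType μ
  have hK : ∀ a : K, #(Iio a) < κ := fun a => by
    have := mk_Iio_lt a (by simp [K])
    rwa [hKκ] at this
  have hL : ∀ a : L, #(Iio a) < μ := fun a => by
    have := mk_Iio_lt a (by simp [L])
    rwa [hLμ] at this
  have hL' : ∀ a : L, #(Iio a) ≤ κ := fun a => by
    exact Order.lt_succ_iff.1 ((hL a).trans_eq hsucc)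
  have hinf : Infinite K := by
    rw [← aleph0_le_mk_iff, hKκ]
    exact hreg.aleph0_le
  obtain ⟨k0⟩ : Nonempty K := inferInstance
  have hf0 : ∀ η : L, ∃ g : L → K, InjOn g (Iio η) := by
    intro η
    have h1 : #(Iio η) ≤ #K := by rw [hKκ]; exact hL' η
    rw [le_def] at h1
    obtain ⟨g⟩ := h1
    classical
    refine ⟨fun ξ => if h : ξ ∈ Iio η then g ⟨ξ, h⟩ else k0, ?_⟩
    intro a ha b hb hab
    simp only [dif_pos ha, dif_pos hb] at hab
    exact congrArg Subtype.val (g.injective hab)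
  choose f hf using hf0
  have hKK : #(K × K) = #B := by
    rw [← mul_def, hKκ, hB]
    exact mul_eq_self hreg.aleph0_le
  obtain ⟨φ⟩ := Cardinal.eq.1 hKK
  refine ⟨L, inferInstance, hLμ, ?_, fun η b => cohF f k0 η (φ.symm b), ?_, ?_, ?_⟩
  · intro T hT
    have hT' : #T < μ := by
      rw [hsucc]
      exact Order.lt_succ_iff.2 hT
    have h1 : #(⋃ ζ ∈ T, (Iic ζ) : Set L) < μ := by
      rw [card_biUnion_lt_iff_forall_of_isRegular hreg' hT']
      intro ζ _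
      exact coh_Iic_lt hreg' hL ζ
    by_contra hcon
    push Not at hcon
    have h2 : (⋃ ζ ∈ T, (Iic ζ) : Set L) = Set.univ := by
      rw [eq_univ_iff_forall]
      intro ν
      obtain ⟨ζ, h3, h4⟩ := hcon ν
      exact mem_biUnion h3 h4
    rw [h2, mk_univ, hLμ] at h1
    exact lt_irrefl _ h1
  · intro η b ξ h
    rw [cohF_eq_some hreg hK f hf k0 hKκ] at h
    exact h.1.1
  · intro η ξ h
    refine (cohF_fibre hreg hK f hf k0 hKκ η ξ h).trans ?_
    refine mk_le_of_injective (f := fun p => (⟨φ p.1, ?_⟩ :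
      {b : B // cohF f k0 η (φ.symm b) = some ξ})) ?_
    · rw [Equiv.symm_apply_apply]
      exact p.2
    · intro a b hab
      exact Subtype.ext (φ.injective (congrArg Subtype.val hab))
  · intro η η' h
    refine lt_of_le_of_lt ?_ (cohF_coherent hreg hK f hf k0 hKκ η η' h)
    refine mk_le_of_injective (f := fun b => (⟨φ.symm b.1, b.2⟩ :
      {p : K × K | cohF f k0 η p ≠ (cohF f k0 η' p).filter (fun ξ => ξ < η)})) ?_
    intro a b hab
    exact Subtype.ext (φ.symm.injective (congrArg Subtype.val hab))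

end Pool.H74.ID
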