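import Mathlib

/-!
Injective dimension of Banach spaces: basic definitions.

All Banach spaces live in `Type`, over a fixed scalar field with `RCLike`.
-/

open Cardinal
open scoped ENNReal

namespace Pool.H74.ID

/-- `E` is an injective Banach space: every bounded operator into `E` from a closed subspace of a
Banach space extends to the whole space. -/
def Inj (𝕜 : Type) [RCLike 𝕜] (E : Type) [NormedAddCommGroup E] [NormedSpace 𝕜 E] : Prop :=
  ∀ (Y : Type) [NormedAddCommGroup Y] [NormedSpace 𝕜 Y] [CompleteSpace Y]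
    (M : Submodule 𝕜 Y), IsClosed (M : Set Y) →
    ∀ f : M →L[𝕜] E, ∃ g : Y →L[𝕜] E, ∀ m : M, g (m : Y) = f m

/-- `InjDimLE 𝕜 n X`: the Banach space `X` has an injective resolution
`0 → X → E 0 → ⋯ → E n → 0` of length at most `n`. -/
def InjDimLE (𝕜 : Type) [RCLike 𝕜] :
    ℕ → (X : Type) → [NormedAddCommGroup X] → [NormedSpace 𝕜 X] → Prop
  | 0, X, _, _ => Inj 𝕜 X
  | n + 1, X, _, _ => ∃ (E Q : Type) (_ : NormedAddCommGroup E) (_ : NormedSpace 𝕜 E)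
      (_ : CompleteSpace E) (_ : NormedAddCommGroup Q) (_ : NormedSpace 𝕜 Q)
      (_ : CompleteSpace Q) (j : X →L[𝕜] E) (q : E →L[𝕜] Q),
      Inj 𝕜 E ∧ Function.Injective j ∧ Function.Surjective q ∧
      (∀ e : E, q e = 0 ↔ ∃ x, j x = e) ∧ InjDimLE 𝕜 n Q

/-- `ℓ_∞(I)`. -/
abbrev LInf (𝕜 : Type) [RCLike 𝕜] (I : Type) : Type := lp (fun _ : I => 𝕜) ∞

/-- `V 𝕜 k I`: the bounded functions on `I` all of whose sets `{ε ≤ ‖x i‖}`, `ε > 0`, have fewer
than `ℵ_k` elements. -/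
def V (𝕜 : Type) [RCLike 𝕜] (k : ℕ) (I : Type) : Submodule 𝕜 (LInf 𝕜 I) where
  carrier := {x | ∀ ε : ℝ, 0 < ε → #{i : I // ε ≤ ‖x i‖} < ℵ_ (k : Ordinal.{0})}
  zero_mem' := by
    intro ε hε
    have : IsEmpty {i : I // ε ≤ ‖(0 : LInf 𝕜 I) i‖} := by
      constructor
      rintro ⟨i, hi⟩
      simp at hi
      linarith
    rw [mk_eq_zero]
    exact aleph_pos _
  add_mem' := by
    intro x y hx hy ε hε
    have h1 : {i : I | ε ≤ ‖(x + y) i‖} ⊆ {i | ε / 2 ≤ ‖x i‖} ∪ {i | ε / 2 ≤ ‖y i‖} := by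
      intro i hi
      by_contra hcon
      simp only [Set.mem_union, Set.mem_ofPred_eq, not_or, not_le] at hcon
      have h2 : ‖(x + y) i‖ ≤ ‖x i‖ + ‖y i‖ := norm_add_le _ _
      have h3 : ε ≤ ‖(x + y) i‖ := hi
      linarith [hcon.1, hcon.2]
    refine (mk_le_mk_of_subset h1).trans_lt ((mk_union_le _ _).trans_lt ?_)
    exact add_lt_of_lt (aleph0_le_aleph _) (hx _ (by positivity)) (hy _ (by positivity))
  smul_mem' := by
    intro c x hx ε hε
    by_cases hc : c = 0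
    · subst hc
      have : IsEmpty {i : I // ε ≤ ‖((0 : 𝕜) • x) i‖} := by
        constructor
        rintro ⟨i, hi⟩
        simp at hi
        linarith
      rw [mk_eq_zero]
      exact aleph_pos _
    · have hc' : 0 < ‖c‖ := norm_pos_iff.2 hc
      refine (mk_le_mk_of_subset (?_ : {i : I | ε ≤ ‖(c • x) i‖} ⊆ {i | ε / ‖c‖ ≤ ‖x i‖})).trans_lt
        (hx _ (by positivity))
      intro i hi
      have h3 : ε ≤ ‖(c • x) i‖ := hi
      rw [lp.coeFn_smul, Pi.smul_apply, norm_smul] at h3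
      simp only [Set.mem_ofPred_eq]
      rw [div_le_iff₀ hc']
      linarith [mul_comm ‖c‖ ‖x i‖]

theorem mem_V {𝕜 : Type} [RCLike 𝕜] {k : ℕ} {I : Type} (x : LInf 𝕜 I) :
    x ∈ V 𝕜 k I ↔ ∀ ε : ℝ, 0 < ε → #{i : I // ε ≤ ‖x i‖} < ℵ_ (k : Ordinal.{0}) := Iff.rfl

theorem isClosed_V (𝕜 : Type) [RCLike 𝕜] (k : ℕ) (I : Type) :
    IsClosed (V 𝕜 k I : Set (LInf 𝕜 I)) := by
  rw [← isOpen_compl_iff, Metric.isOpen_iff]
  intro x hx
  simp only [Set.mem_compl_iff, SetLike.mem_coe, mem_V, not_forall, not_lt] at hx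
  obtain ⟨ε, hε, hx⟩ := hx
  refine ⟨ε / 2, by positivity, ?_⟩
  intro y hy hyV
  rw [Metric.mem_ball, dist_eq_norm] at hy
  have h1 := (mem_V y).1 hyV (ε / 2) (by positivity)
  refine absurd (hx.trans (mk_le_mk_of_subset
    (?_ : {i : I | ε ≤ ‖x i‖} ⊆ {i | ε / 2 ≤ ‖y i‖}))) (not_le.2 h1)
  intro i hi
  have h3 : ε ≤ ‖x i‖ := hi
  have h4 : ‖(y - x) i‖ ≤ ‖y - x‖ := lp.norm_apply_le_norm (by simp) _ i
  have h5 : ‖x i‖ ≤ ‖y i‖ + ‖(y - x) i‖ := by
    have : x i = y i - (y - x) i := by simp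
    rw [this]
    exact norm_sub_le _ _
  simp only [Set.mem_ofPred_eq]
  linarith

instance (𝕜 : Type) [RCLike 𝕜] (k : ℕ) (I : Type) :
    IsClosed (V 𝕜 k I : Set (LInf 𝕜 I)) := isClosed_V 𝕜 k I

end Pool.H74.ID
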