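import Pool.Agent.H74.ID.Defs

/-! Short exact sequences of Banach spaces and dimension shifting. -/

open Cardinal
open scoped ENNReal

namespace Pool.H74.ID

variable {𝕜 : Type} [RCLike 𝕜]

/-- Extension along an injective operator with closed range. -/
theorem Inj.ext {F : Type} [NormedAddCommGroup F] [NormedSpace 𝕜 F] (hF : Inj 𝕜 F)
    {X E : Type} [NormedAddCommGroup X] [NormedSpace 𝕜 X] [CompleteSpace X]
    [NormedAddCommGroup E] [NormedSpace 𝕜 E] [CompleteSpace E]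
    (i : X →L[𝕜] E) (hi : Function.Injective i) (hc : IsClosed (Set.range i)) (f : X →L[𝕜] F) :
    ∃ g : E →L[𝕜] F, ∀ x, g (i x) = f x := by
  have hc' : IsClosed ((LinearMap.range i.toLinearMap : Submodule 𝕜 E) : Set E) := hc
  obtain ⟨g, hg⟩ := hF E (LinearMap.range i.toLinearMap) hc'
    (f.comp ((i.equivRange hi hc').symm : _ →L[𝕜] X))
  refine ⟨g, fun x => ?_⟩
  have := hg ⟨i x, LinearMap.mem_range.2 ⟨x, rfl⟩⟩
  simp only at this
  rw [this]
  simp only [ContinuousLinearMap.comp_apply]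
  congr 1
  erw [ContinuousLinearEquiv.symm_apply_eq]
  rfl

/-- `0 → X → E → Q → 0` is a short exact sequence. -/
structure SES {X E Q : Type} [NormedAddCommGroup X] [NormedSpace 𝕜 X]
    [NormedAddCommGroup E] [NormedSpace 𝕜 E] [NormedAddCommGroup Q] [NormedSpace 𝕜 Q]
    (j : X →L[𝕜] E) (q : E →L[𝕜] Q) : Prop where
  inj : Function.Injective j
  surj : Function.Surjective q
  exact : ∀ e : E, q e = 0 ↔ ∃ x, j x = e

section
variable {X E Q G : Type} [NormedAddCommGroup X] [NormedSpace 𝕜 X]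
    [NormedAddCommGroup E] [NormedSpace 𝕜 E] [NormedAddCommGroup Q] [NormedSpace 𝕜 Q]
    [NormedAddCommGroup G] [NormedSpace 𝕜 G]
    {j : X →L[𝕜] E} {q : E →L[𝕜] Q}

theorem SES.zero (h : SES j q) (x : X) : q (j x) = 0 := (h.exact _).2 ⟨x, rfl⟩

theorem SES.isClosed (h : SES j q) : IsClosed (Set.range j) := by
  have : Set.range j = q ⁻¹' {0} := by
    ext e
    simp [h.exact]
  rw [this]
  exact isClosed_singleton.preimage q.continuous

theorem SES.desc [CompleteSpace E] [CompleteSpace Q] (h : SES j q) (f : E →L[𝕜] G)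
    (hf : ∀ x, f (j x) = 0) : ∃ g : Q →L[𝕜] G, ∀ e, g (q e) = f e := by
  have key : ∀ e e', q e = q e' → f e = f e' := by
    intro e e' hee
    obtain ⟨x, hx⟩ := (h.exact (e - e')).1 (by rw [map_sub, hee, sub_self])
    have := hf x
    rw [hx, map_sub, sub_eq_zero] at this
    exact this
  choose s hs using h.surj
  let g : Q →ₗ[𝕜] G :=
    { toFun := fun y => f (s y)
      map_add' := fun y z => by
        rw [← map_add]
        apply key
        rw [map_add, hs, hs, hs]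
      map_smul' := fun c y => by
        rw [RingHom.id_apply, ← map_smul]
        apply key
        rw [map_smul, hs, hs] }
  have hg : ∀ e, g (q e) = f e := fun e => key _ _ (hs _)
  refine ⟨⟨g, ?_⟩, hg⟩
  have hq : Topology.IsQuotientMap q := (q.isOpenMap h.surj).isQuotientMap q.continuous h.surj
  rw [hq.continuous_iff]
  have : (g.toFun ∘ q) = f := funext hg
  rw [this]
  exact f.continuous
end

theorem Inj.retr {E P : Type} [NormedAddCommGroup E] [NormedSpace 𝕜 E]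
    [NormedAddCommGroup P] [NormedSpace 𝕜 P] (h : Inj 𝕜 E) (s : P →L[𝕜] E) (r : E →L[𝕜] P)
    (hsr : ∀ p, r (s p) = p) : Inj 𝕜 P := by
  intro Y _ _ _ M hM f
  obtain ⟨g, hg⟩ := h Y M hM (s.comp f)
  exact ⟨r.comp g, fun m => by simp [hg, hsr]⟩

theorem Inj.prod {E F : Type} [NormedAddCommGroup E] [NormedSpace 𝕜 E]
    [NormedAddCommGroup F] [NormedSpace 𝕜 F] (hE : Inj 𝕜 E) (hF : Inj 𝕜 F) : Inj 𝕜 (E × F) := by
  intro Y _ _ _ M hM f
  obtain ⟨g, hg⟩ := hE Y M hM ((ContinuousLinearMap.fst 𝕜 E F).comp f)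
  obtain ⟨g', hg'⟩ := hF Y M hM ((ContinuousLinearMap.snd 𝕜 E F).comp f)
  exact ⟨g.prod g', fun m => by
    ext
    · simp [hg]
    · simp [hg']⟩

theorem step {Q E R F P G S : Type}
    [NormedAddCommGroup Q] [NormedSpace 𝕜 Q] [CompleteSpace Q]
    [NormedAddCommGroup E] [NormedSpace 𝕜 E] [CompleteSpace E]
    [NormedAddCommGroup R] [NormedSpace 𝕜 R] [CompleteSpace R]
    [NormedAddCommGroup F] [NormedSpace 𝕜 F] [CompleteSpace F]
    [NormedAddCommGroup P] [NormedSpace 𝕜 P] [CompleteSpace P]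
    [NormedAddCommGroup G] [NormedSpace 𝕜 G] [CompleteSpace G]
    [NormedAddCommGroup S] [NormedSpace 𝕜 S] [CompleteSpace S]
    {i : Q →L[𝕜] E} {q0 : E →L[𝕜] R} (h1 : SES i q0) (hE : Inj 𝕜 E) (hF : Inj 𝕜 F)
    (s : P →L[𝕜] Q × F) (r : Q × F →L[𝕜] P) (hrs : ∀ p, r (s p) = p)
    {j : P →L[𝕜] G} {q : G →L[𝕜] S} (h2 : SES j q) (hG : Inj 𝕜 G) :
    ∃ (a : S →L[𝕜] R × G) (b : R × G →L[𝕜] S), ∀ x, b (a x) = x := by
  let ι : Q × F →L[𝕜] E × F := i.prodMap (ContinuousLinearMap.id 𝕜 F)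
  let w0 : E × F →L[𝕜] R := q0.comp (ContinuousLinearMap.fst 𝕜 E F)
  have hι : ∀ x y, ι (x, y) = (i x, y) := fun x y => rfl
  have hw0 : ∀ e f, w0 (e, f) = q0 e := fun e f => rfl
  have h3 : SES ι w0 := by
    refine ⟨?_, ?_, ?_⟩
    · rintro ⟨x, y⟩ ⟨x', y'⟩ hxy
      rw [hι, hι, Prod.mk.injEq] at hxy
      exact Prod.ext (h1.inj hxy.1) hxy.2
    · intro z
      obtain ⟨e, he⟩ := h1.surj z
      exact ⟨(e, 0), by rw [hw0, he]⟩
    · rintro ⟨e, f⟩
      rw [hw0, h1.exact]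
      constructor
      · rintro ⟨x, hx⟩
        exact ⟨(x, f), by rw [hι, hx]⟩
      · rintro ⟨⟨x, f'⟩, hx⟩
        rw [hι, Prod.mk.injEq] at hx
        exact ⟨x, hx.1⟩
  obtain ⟨u, hu⟩ := hG.ext ι h3.inj h3.isClosed (j.comp r)
  obtain ⟨v, hv⟩ := (hE.prod hF).ext j h2.inj h2.isClosed (ι.comp s)
  simp only [ContinuousLinearMap.comp_apply] at hu hv
  obtain ⟨w, hw⟩ := h2.desc (u.comp v - ContinuousLinearMap.id 𝕜 G) (by
    intro x
    simp [hv, hu, hrs])
  obtain ⟨ub, hub⟩ := h3.desc (q.comp u) (by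
    intro x
    simp only [ContinuousLinearMap.comp_apply]
    rw [hu, h2.zero])
  obtain ⟨vb, hvb⟩ := h2.desc (w0.comp v) (by
    intro x
    simp only [ContinuousLinearMap.comp_apply]
    rw [hv]
    exact h3.zero _)
  simp only [ContinuousLinearMap.comp_apply] at hub hvb
  refine ⟨vb.prod w, ub.comp (ContinuousLinearMap.fst 𝕜 R G) - q.comp (ContinuousLinearMap.snd 𝕜 R G),
    ?_⟩
  intro x
  obtain ⟨g, rfl⟩ := h2.surj x
  simp only [sub_apply, ContinuousLinearMap.comp_apply,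
    ContinuousLinearMap.coe_fst', ContinuousLinearMap.coe_snd', ContinuousLinearMap.prod_apply]
  rw [hvb, hub, hw]
  simp

/-- Every Banach space embeds in an injective one (with a quotient). -/
def EnoughInj (𝕜 : Type) [RCLike 𝕜] : Prop :=
  ∀ (P : Type) [NormedAddCommGroup P] [NormedSpace 𝕜 P] [CompleteSpace P],
    ∃ (G S : Type) (_ : NormedAddCommGroup G) (_ : NormedSpace 𝕜 G) (_ : CompleteSpace G)
      (_ : NormedAddCommGroup S) (_ : NormedSpace 𝕜 S) (_ : CompleteSpace S)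
      (j : P →L[𝕜] G) (q : G →L[𝕜] S), Inj 𝕜 G ∧ SES j q

theorem injDimLE_retr (hEI : EnoughInj 𝕜) (n : ℕ) : ∀ (Q F P : Type)
    [NormedAddCommGroup Q] [NormedSpace 𝕜 Q] [CompleteSpace Q]
    [NormedAddCommGroup F] [NormedSpace 𝕜 F] [CompleteSpace F]
    [NormedAddCommGroup P] [NormedSpace 𝕜 P] [CompleteSpace P],
    InjDimLE 𝕜 n Q → Inj 𝕜 F → ∀ (s : P →L[𝕜] Q × F) (r : Q × F →L[𝕜] P),
    (∀ p, r (s p) = p) → InjDimLE 𝕜 n P := by
  induction n with
  | zero =>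
    intro Q F P _ _ _ _ _ _ _ _ _ hQ hF s r hrs
    exact (Inj.prod hQ hF).retr s r hrs
  | succ n ih =>
    intro Q F P _ _ _ _ _ _ _ _ _ hQ hF s r hrs
    obtain ⟨E, R, _, _, _, _, _, _, i, q0, hE, hi, hq, hex, hR⟩ := hQ
    obtain ⟨G, S, _, _, _, _, _, _, j, q, hG, hjq⟩ := hEI P
    obtain ⟨a, b, hab⟩ := step (i := i) (q0 := q0) ⟨hi, hq, hex⟩ hE hF s r hrs hjq hG
    exact ⟨G, S, _, _, ‹_›, _, _, ‹_›, j, q, hG, hjq.inj, hjq.surj, hjq.exact,
      ih R G S hR hG a b hab⟩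

theorem injDimLE_quot (hEI : EnoughInj 𝕜) (n : ℕ) {X G S : Type}
    [NormedAddCommGroup X] [NormedSpace 𝕜 X] [CompleteSpace X]
    [NormedAddCommGroup G] [NormedSpace 𝕜 G] [CompleteSpace G]
    [NormedAddCommGroup S] [NormedSpace 𝕜 S] [CompleteSpace S]
    (hX : InjDimLE 𝕜 (n + 1) X) {j : X →L[𝕜] G} {q : G →L[𝕜] S} (hjq : SES j q) (hG : Inj 𝕜 G) :
    InjDimLE 𝕜 n S := by
  obtain ⟨E, R, _, _, _, _, _, _, i, q0, hE, hi, hq, hex, hR⟩ := hX
  obtain ⟨a, b, hab⟩ := step (i := i) (q0 := q0) ⟨hi, hq, hex⟩ hE hG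
    (ContinuousLinearMap.inl 𝕜 X G) (ContinuousLinearMap.fst 𝕜 X G) (fun p => rfl) hjq hG
  exact injDimLE_retr hEI n R G S hR hG a b hab

end Pool.H74.ID
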