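import Mathlib
import Pool.Agent.H74.ID.Main

/-!
# The injective dimension of `c_0`

If `2 ^ ℵ_i < 2 ^ ℵ_(i+1)` for all `i < N`, then `c_0` has no injective resolution of length `N`.
In particular the injective dimension of `c_0` is infinite if the continuum function is strictly
increasing on the cardinals below `ℵ_ω`, for instance under the generalized continuum hypothesis
below `ℵ_ω`.
-/

set_option autoImplicit false

open Cardinal
open scoped ENNReal ZeroAtInfty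

namespace Pool.Agent.H74.ID.InfiniteWeakGCH

open Pool.H74.ID

/-- Almost disjoint families can be moved to any set of the same size. -/
theorem hasAD_transport {κ μ : Cardinal.{0}} {I J : Type} (h : #I = #J) (hI : HasAD κ μ I) :
    HasAD κ μ J := by
  obtain ⟨e⟩ := Cardinal.eq.1 h
  obtain ⟨S, A, hS, h1, h2⟩ := hI
  refine ⟨S, fun s => e '' A s, hS, fun s => ?_, fun s t hst => ?_⟩
  · rw [mk_image_eq e.injective]
    exact h1 s
  · rw [← Set.image_inter e.injective, mk_image_eq e.injective]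
    exact h2 s t hst

theorem result (𝕜 : Type) [RCLike 𝕜] :
    (∀ N : ℕ,
      (∀ i : ℕ, i < N →
        (2 : Cardinal.{0}) ^ ℵ_ (i : Ordinal.{0}) < 2 ^ ℵ_ ((i + 1 : ℕ) : Ordinal.{0})) →
      ¬ InjDimLE 𝕜 N C₀(ℕ, 𝕜)) ∧
    (∀ (N : ℕ) (μ : Cardinal.{0}),
      (∀ i : ℕ, i < N →
        (2 : Cardinal.{0}) ^ ℵ_ (i : Ordinal.{0}) < 2 ^ ℵ_ ((i + 1 : ℕ) : Ordinal.{0})) →
      (∃ (I S : Type) (A : S → Set I), #I = ℵ_ (N : Ordinal.{0}) ∧ #S = μ ∧
        (∀ s, #(A s) = ℵ_ (N : Ordinal.{0})) ∧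
        ∀ s t, s ≠ t → #(A s ∩ A t : Set I) < ℵ_ (N : Ordinal.{0})) →
      (2 : Cardinal.{0}) ^ ℵ_ (N : Ordinal.{0}) < 2 ^ μ →
      ¬ InjDimLE 𝕜 (N + 1) C₀(ℕ, 𝕜)) ∧
    (∀ N : ℕ,
      (∀ i : ℕ, i < N →
        (2 : Cardinal.{0}) ^ ℵ_ (i : Ordinal.{0}) = ℵ_ ((i + 1 : ℕ) : Ordinal.{0})) →
      ¬ InjDimLE 𝕜 (N + 1) C₀(ℕ, 𝕜)) ∧
    (∀ N : ℕ, ¬ InjDimLE 𝕜 N C₀(ℕ, 𝕜) →
      ∀ (E : ℕ → Type) [∀ n, NormedAddCommGroup (E n)] [∀ n, NormedSpace 𝕜 (E n)]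
        [∀ n, CompleteSpace (E n)] (e : C₀(ℕ, 𝕜) →L[𝕜] E 0)
        (d : ∀ n, E n →L[𝕜] E (n + 1)),
        IsInjRes 𝕜 C₀(ℕ, 𝕜) E e d → ExtNeZero 𝕜 E d N) := by
  refine ⟨?_, ?_, ?_, ?_⟩
  · intro N hN
    exact main1 N 0 _ sm_base (fun i _ hi => hN i (by omega))
  · rintro N μ hN ⟨I, S, A, hI, hS, h1, h2⟩ hμ
    refine main2 N μ 0 _ sm_base (fun i _ hi => hN i (by omega)) ?_ ?_
    · rw [zero_add]
      intro J hJ
      exact hasAD_transport (hI.trans hJ.symm) ⟨S, A, hS, fun s => (h1 s).ge, h2⟩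
    · rw [zero_add]
      exact hμ
  · intro N hN
    refine main2 N (2 ^ ℵ_ (N : Ordinal.{0})) 0 _ sm_base (fun i _ hi => ?_) ?_ ?_
    · rw [hN i (by omega)]
      exact cantor _
    · rw [zero_add]
      intro J hJ
      refine hasAD_branches N (fun i hi => ?_) J hJ
      rw [hN i hi, aleph_le_aleph]
      exact_mod_cast hi
    · rw [zero_add]
      exact cantor _
  · intro N hN E _ _ _ e d h
    exact ext_ne_zero E e d h N hN

end Pool.Agent.H74.ID.InfiniteWeakGCH
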