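import Pool.Agent.H74.ID.Hom

/-! The spaces `ℓ_∞(Λ)`: injectivity, embeddings into them, cardinality. -/

open Cardinal
open scoped ENNReal

namespace Pool.H74.ID

variable {𝕜 : Type} [RCLike 𝕜]

/-- A bounded family of functionals gives an operator into `ℓ_∞`. -/
theorem exists_mk {Y : Type} [NormedAddCommGroup Y] [NormedSpace 𝕜 Y] {Λ : Type}
    (g : Λ → (Y →L[𝕜] 𝕜)) (C : ℝ) (hC : ∀ l, ‖g l‖ ≤ C) :
    ∃ G : Y →L[𝕜] LInf 𝕜 Λ, ∀ y l, G y l = g l y := by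
  have hb : ∀ y l, ‖g l y‖ ≤ |C| * ‖y‖ := fun y l =>
    ((g l).le_opNorm y).trans
      (mul_le_mul_of_nonneg_right ((hC l).trans (le_abs_self C)) (norm_nonneg _))
  let G : Y →ₗ[𝕜] LInf 𝕜 Λ :=
    { toFun := fun y => ⟨fun l => g l y, memℓp_infty ⟨|C| * ‖y‖, by
        rintro _ ⟨l, rfl⟩
        exact hb y l⟩⟩
      map_add' := fun y z => by
        apply lp.ext
        funext l
        simp
      map_smul' := fun c y => by
        apply lp.ext
        funext l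
        simp }
  refine ⟨G.mkContinuous |C| fun y => ?_, fun y l => rfl⟩
  exact lp.norm_le_of_forall_le (by positivity) fun l => hb y l

theorem inj_LInf (Λ : Type) : Inj 𝕜 (LInf 𝕜 Λ) := by
  intro Y _ _ _ M hM f
  have hl : ∀ l : Λ, ∃ fl : M →L[𝕜] 𝕜, (∀ m, fl m = f m l) ∧ ‖fl‖ ≤ ‖f‖ := by
    intro l
    have hb : ∀ m : M, ‖f m l‖ ≤ ‖f‖ * ‖m‖ := fun m =>
      (lp.norm_apply_le_norm (by simp) (f m) l).trans (f.le_opNorm m)
    let fl : M →ₗ[𝕜] 𝕜 :=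
      { toFun := fun m => f m l
        map_add' := fun m m' => by simp
        map_smul' := fun c m => by simp }
    exact ⟨fl.mkContinuous ‖f‖ hb, fun m => rfl,
      LinearMap.mkContinuous_norm_le _ (norm_nonneg _) _⟩
  choose fl hfl hfn using hl
  choose gl hgl hgn using fun l => exists_extension_norm_eq M (fl l)
  obtain ⟨G, hG⟩ := exists_mk gl ‖f‖ (fun l => by rw [hgn]; exact hfn l)
  refine ⟨G, fun m => ?_⟩
  apply lp.ext
  funext l
  rw [hG, hgl, hfl]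

theorem isClosed_range_of_bound {X Y : Type} [NormedAddCommGroup X] [NormedSpace 𝕜 X]
    [CompleteSpace X] [NormedAddCommGroup Y] [NormedSpace 𝕜 Y] (j : X →L[𝕜] Y) (c : ℝ)
    (hc : 0 < c) (hj : ∀ x, c * ‖x‖ ≤ ‖j x‖) :
    Function.Injective j ∧ IsClosed (Set.range j) := by
  have h1 : AntilipschitzWith (Real.toNNReal c⁻¹) j := by
    apply AntilipschitzWith.of_le_mul_dist
    intro x y
    rw [dist_eq_norm, dist_eq_norm, ← map_sub, Real.coe_toNNReal _ (by positivity)]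
    rw [inv_mul_eq_div, le_div_iff₀ hc, mul_comm]
    exact hj _
  exact ⟨h1.injective, h1.isClosed_range j.uniformContinuous⟩

theorem ses_quot {X Y : Type} [NormedAddCommGroup X] [NormedSpace 𝕜 X]
    [CompleteSpace X] [NormedAddCommGroup Y] [NormedSpace 𝕜 Y] [CompleteSpace Y]
    (j : X →L[𝕜] Y) (c : ℝ) (hc : 0 < c) (hj : ∀ x, c * ‖x‖ ≤ ‖j x‖) (M : Submodule 𝕜 Y)
    [IsClosed (M : Set Y)] (hM : ∀ y, y ∈ M ↔ ∃ x, j x = y) : SES j (M.mkQL) := by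
  refine ⟨(isClosed_range_of_bound j c hc hj).1, ?_, ?_⟩
  · exact Submodule.mkQ_surjective M
  · intro e
    rw [← hM]
    exact Submodule.Quotient.mk_eq_zero M

theorem exists_embed (X : Type) [NormedAddCommGroup X] [NormedSpace 𝕜 X] :
    ∃ (j : X →L[𝕜] LInf 𝕜 X), ∀ x, ‖x‖ ≤ ‖j x‖ := by
  choose g hg1 hg2 using fun x : X => exists_dual_vector'' 𝕜 x
  obtain ⟨j, hj⟩ := exists_mk g 1 hg1
  refine ⟨j, fun x => ?_⟩
  have h1 := lp.norm_apply_le_norm (by simp) (j x) x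
  rw [hj, hg2] at h1
  simpa using h1

theorem enoughInj : EnoughInj 𝕜 := by
  intro P _ _ _
  obtain ⟨j, hj⟩ := exists_embed (𝕜 := 𝕜) P
  have hj' : ∀ x, 1 * ‖x‖ ≤ ‖j x‖ := fun x => by rw [one_mul]; exact hj x
  obtain ⟨_, h2⟩ := isClosed_range_of_bound j 1 one_pos hj'
  let M : Submodule 𝕜 (LInf 𝕜 P) := LinearMap.range j.toLinearMap
  have : IsClosed (M : Set (LInf 𝕜 P)) := h2
  exact ⟨LInf 𝕜 P, LInf 𝕜 P ⧸ M, inferInstance, inferInstance, inferInstance, inferInstance,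
    inferInstance, inferInstance, j, M.mkQL, inj_LInf P,
    ses_quot j 1 one_pos hj' M (fun y => Iff.rfl)⟩

theorem mk_field_le : #𝕜 ≤ 𝔠 := by
  have h1 : Function.Injective (fun z : 𝕜 => ((RCLike.re z : ℝ), (RCLike.im z : ℝ))) := by
    intro z w h
    simp only [Prod.mk.injEq] at h
    exact RCLike.ext h.1 h.2
  refine (mk_le_of_injective h1).trans ?_
  rw [mk_prod, mk_real]
  simp

theorem mk_LInf_le (Λ : Type) (μ : Cardinal.{0}) (hΛ : #Λ ≤ μ) (hμ : ℵ₀ ≤ μ) :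
    #(LInf 𝕜 Λ) ≤ 2 ^ μ := by
  have h1 : #(LInf 𝕜 Λ) ≤ #(Λ → 𝕜) := by
    refine mk_le_of_injective (f := fun x : LInf 𝕜 Λ => (x : Λ → 𝕜)) ?_
    intro x y h
    exact lp.ext h
  refine h1.trans ?_
  rw [mk_pi, prod_const, lift_id, lift_id]
  calc #𝕜 ^ #Λ ≤ 𝔠 ^ #Λ := power_le_power_right mk_field_le
    _ ≤ 𝔠 ^ μ := power_le_power_left continuum_ne_zero hΛ
    _ = 2 ^ (ℵ₀ * μ) := by rw [← two_power_aleph0, ← power_mul]
    _ = 2 ^ μ := by rw [aleph0_mul_eq hμ]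

end Pool.H74.ID
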