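import Pool.Agent.H74.ID.LI
import Pool.Agent.H74.ID.Comb

/-! The space of functions with small support on a set of size `ℵ_(k+1)` embeds in the quotient
`ℓ_∞ / V` over a set of size `ℵ_k`. -/

open Cardinal
open scoped ENNReal

namespace Pool.H74.ID

variable {𝕜 : Type} [RCLike 𝕜]

theorem le_norm_mk {Y : Type} [NormedAddCommGroup Y] [NormedSpace 𝕜 Y] (M : Submodule 𝕜 Y)
    (y : Y) (r : ℝ) (h : ∀ m ∈ M, r ≤ ‖y - m‖) :
    r ≤ ‖(Submodule.Quotient.mk y : Y ⧸ M)‖ := by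
  refine (QuotientAddGroup.le_norm_iff (S := M.toAddSubgroup)).2 ?_
  intro z hz
  have h1 : (Submodule.Quotient.mk z : Y ⧸ M) = Submodule.Quotient.mk y := hz
  rw [Submodule.Quotient.eq] at h1
  have h2 := h (y - z) (by rw [← neg_sub]; exact M.neg_mem h1)
  simpa using h2

theorem exists_eval {L : Type} (ξ : L) :
    ∃ g : LInf 𝕜 L →L[𝕜] 𝕜, (∀ x, g x = x ξ) ∧ ‖g‖ ≤ 1 := by
  let g : LInf 𝕜 L →ₗ[𝕜] 𝕜 :=
    { toFun := fun x => x ξ
      map_add' := fun x y => by simp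
      map_smul' := fun c x => by simp }
  have hg : ∀ x, ‖g x‖ ≤ 1 * ‖x‖ := fun x => by
    rw [one_mul]
    exact lp.norm_apply_le_norm (by simp) x ξ
  exact ⟨g.mkContinuous 1 hg, fun x => rfl, LinearMap.mkContinuous_norm_le _ zero_le_one _⟩

/-- Composition with an Option-valued function. -/
theorem exists_cmp {L B : Type} (G : B → Option L) :
    ∃ T : LInf 𝕜 L →L[𝕜] LInf 𝕜 B, ∀ x b, T x b = (G b).elim 0 (fun ξ => x ξ) := by
  choose e he1 he2 using fun ξ : L => exists_eval (𝕜 := 𝕜) ξ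
  obtain ⟨T, hT⟩ := exists_mk (𝕜 := 𝕜) (Y := LInf 𝕜 L) (Λ := B) (fun b => (G b).elim 0 e) 1 (by
    intro b
    cases G b with
    | none => simp
    | some ξ => simpa using he2 ξ)
  refine ⟨T, fun x b => ?_⟩
  rw [hT]
  cases G b with
  | none => simp
  | some ξ => simpa using he1 ξ x

theorem mk_supp_le {k : ℕ} {L : Type} (x : LInf 𝕜 L) (hx : x ∈ V 𝕜 (k + 1) L) :
    #{ξ : L | x ξ ≠ 0} ≤ ℵ_ (k : Ordinal.{0}) := by
  have h1 : {ξ : L | x ξ ≠ 0} ⊆ ⋃ n : ℕ, {ξ : L | 1 / ((n : ℝ) + 1) ≤ ‖x ξ‖} := by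
    intro ξ hξ
    have hξ' : 0 < ‖x ξ‖ := norm_pos_iff.2 hξ
    obtain ⟨n, hn⟩ := exists_nat_one_div_lt hξ'
    exact Set.mem_iUnion.2 ⟨n, hn.le⟩
  refine (mk_le_mk_of_subset h1).trans ((mk_iUnion_le _).trans ?_)
  have h2 : ∀ n : ℕ, #{ξ : L | 1 / ((n : ℝ) + 1) ≤ ‖x ξ‖} ≤ ℵ_ (k : Ordinal.{0}) := by
    intro n
    have h3 := (mem_V x).1 hx (1 / ((n : ℝ) + 1)) (by positivity)
    rw [Nat.cast_add, Nat.cast_one, ← succ_aleph] at h3
    exact Order.lt_succ_iff.1 h3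
  calc #ℕ * ⨆ n : ℕ, #{ξ : L | 1 / ((n : ℝ) + 1) ≤ ‖x ξ‖}
      ≤ ℵ₀ * ℵ_ (k : Ordinal.{0}) := by
        rw [mk_nat]
        exact mul_le_mul_right (ciSup_le' h2) _
    _ = ℵ_ (k : Ordinal.{0}) := aleph0_mul_aleph _

/-- The operator `g ↦ [g ∘ F η]` on functions with small support. -/
theorem exists_Phi (k : ℕ) {B L : Type} [LinearOrder L]
    (hbd : ∀ T : Set L, #T ≤ ℵ_ (k : Ordinal.{0}) → ∃ η, ∀ ξ ∈ T, ξ < η)
    (F : L → B → Option L)
    (hF3 : ∀ η η', η < η' →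
      #{b : B // F η b ≠ (F η' b).filter (fun ξ => ξ < η)} < ℵ_ (k : Ordinal.{0})) :
    ∃ Φ : V 𝕜 (k + 1) L →L[𝕜] (LInf 𝕜 B ⧸ V 𝕜 k B),
      ∀ (g : V 𝕜 (k + 1) L) (η : L), (∀ ξ, (g : LInf 𝕜 L) ξ ≠ 0 → ξ < η) → ∀ y : LInf 𝕜 B,
        (∀ b, y b = (F η b).elim 0 (fun ξ => (g : LInf 𝕜 L) ξ)) →
        Φ g = Submodule.Quotient.mk y := by
  choose T hT using fun η : L => exists_cmp (𝕜 := 𝕜) (F η)
  have hTn : ∀ η x, ‖T η x‖ ≤ ‖x‖ := by
    intro η x
    refine lp.norm_le_of_forall_le (norm_nonneg _) fun b => ?_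
    rw [hT]
    cases F η b with
    | none => simp
    | some ξ => exact lp.norm_apply_le_norm (by simp) x ξ
  have hsupp : ∀ x : V 𝕜 (k + 1) L, ∃ η, ∀ ξ, (x : LInf 𝕜 L) ξ ≠ 0 → ξ < η := fun x =>
    hbd _ (mk_supp_le (x : LInf 𝕜 L) x.2)
  -- independence of the bound
  have hind1 : ∀ (x : LInf 𝕜 L) (η η' : L), η < η' → (∀ ξ, x ξ ≠ 0 → ξ < η) →
      T η x - T η' x ∈ V 𝕜 k B := by
    intro x η η' hη hs ε hε
    refine (mk_le_mk_of_subset (?_ : {b : B | ε ≤ ‖(T η x - T η' x) b‖} ⊆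
      {b | F η b ≠ (F η' b).filter (fun ξ => ξ < η)})).trans_lt (hF3 η η' hη)
    intro b hb hcon
    have hb' : ε ≤ ‖(T η x - T η' x) b‖ := hb
    have h0 : (T η x - T η' x) b = 0 := by
      rw [lp.coeFn_sub, Pi.sub_apply, hT, hT, hcon]
      cases h : F η' b with
      | none => simp
      | some ξ =>
        by_cases hξ : ξ < η
        · simp [Option.filter, hξ]
        · have : x ξ = 0 := by
            by_contra h'
            exact hξ (hs ξ h')
          simp [Option.filter, hξ, this]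
    rw [h0, norm_zero] at hb'
    linarith
  have hind : ∀ (x : LInf 𝕜 L) (η η' : L), (∀ ξ, x ξ ≠ 0 → ξ < η) → (∀ ξ, x ξ ≠ 0 → ξ < η') →
      (Submodule.Quotient.mk (T η x) : LInf 𝕜 B ⧸ V 𝕜 k B) = Submodule.Quotient.mk (T η' x) := by
    intro x η η' hs hs'
    rcases lt_trichotomy η η' with h | h | h
    · exact (Submodule.Quotient.eq _).2 (hind1 x η η' h hs)
    · rw [h]
    · exact ((Submodule.Quotient.eq _).2 (hind1 x η' η h hs')).symm
  choose η hη using hsupp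
  let Φ : V 𝕜 (k + 1) L →ₗ[𝕜] (LInf 𝕜 B ⧸ V 𝕜 k B) :=
    { toFun := fun x => Submodule.Quotient.mk (T (η x) x)
      map_add' := by
        intro x y
        let m := max (η x) (η y)
        have hx : ∀ ξ, (x : LInf 𝕜 L) ξ ≠ 0 → ξ < m := fun ξ h => lt_max_of_lt_left (hη x ξ h)
        have hy : ∀ ξ, (y : LInf 𝕜 L) ξ ≠ 0 → ξ < m := fun ξ h => lt_max_of_lt_right (hη y ξ h)
        have hxy : ∀ ξ, ((x + y : V 𝕜 (k + 1) L) : LInf 𝕜 L) ξ ≠ 0 → ξ < m := by
          intro ξ h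
          by_contra hm
          apply h
          have h1 : (x : LInf 𝕜 L) ξ = 0 := by
            by_contra h'
            exact hm (hx ξ h')
          have h2 : (y : LInf 𝕜 L) ξ = 0 := by
            by_contra h'
            exact hm (hy ξ h')
          simp [h1, h2]
        rw [hind _ _ m (hη _) hxy, hind _ _ m (hη x) hx, hind _ _ m (hη y) hy,
          ← Submodule.Quotient.mk_add, ← map_add]
        rfl
      map_smul' := by
        intro c x
        have hcx : ∀ ξ, ((c • x : V 𝕜 (k + 1) L) : LInf 𝕜 L) ξ ≠ 0 → ξ < η x := by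
          intro ξ h
          apply hη x
          intro h'
          apply h
          simp [h']
        rw [hind _ _ (η x) (hη _) hcx, RingHom.id_apply, ← Submodule.Quotient.mk_smul, ← map_smul]
        rfl }
  refine ⟨Φ.mkContinuous 1 ?_, ?_⟩
  · intro x
    rw [one_mul]
    exact (Submodule.Quotient.norm_mk_le _ _).trans (hTn _ _)
  · intro g η' hg y hy
    have h1 : y = T η' g := by
      apply lp.ext
      funext b
      rw [hy, hT]
    rw [h1]
    exact hind _ _ _ (hη g) hg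

end Pool.H74.ID
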