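import Pool.Agent.H74.ID.Phi
import Pool.Agent.H74.ID.Ros
import Pool.Agent.H74.ID.AD

/-! The spaces `V k I` sitting in a Banach space together with a small left inverse. -/

open Cardinal
open scoped ENNReal

namespace Pool.H74.ID

variable {𝕜 : Type} [RCLike 𝕜]

theorem ind_mem_V (k : ℕ) {I : Type} (N : Set I) (hN : #N < ℵ_ (k : Ordinal.{0})) (y : LInf 𝕜 I)
    (hy : ∀ i, i ∉ N → y i = 0) : y ∈ V 𝕜 k I := by
  intro ε hε
  refine (mk_le_mk_of_subset (?_ : {i : I | ε ≤ ‖y i‖} ⊆ N)).trans_lt hN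
  intro i hi
  by_contra hcon
  have h1 : ε ≤ ‖y i‖ := hi
  rw [hy i hcon, norm_zero] at h1
  linarith

/-- Restriction of a bounded function to a set. -/
theorem exists_restr {I : Type} (N : Set I) (y : LInf 𝕜 I) :
    ∃ v : LInf 𝕜 I, (∀ i ∈ N, v i = y i) ∧ (∀ i, i ∉ N → v i = 0) := by
  classical
  refine ⟨⟨fun i => if i ∈ N then y i else 0, memℓp_infty ⟨‖y‖, ?_⟩⟩, ?_, ?_⟩
  · rintro _ ⟨i, rfl⟩
    simp only
    split_ifs
    · exact lp.norm_apply_le_norm (by simp) y i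
    · simp
  · intro i hi
    exact if_pos hi
  · intro i hi
    exact if_neg hi

/-- `R` avoids many indicator functions on every large set. -/
def Av (k : ℕ) {X I : Type} [NormedAddCommGroup X] [NormedSpace 𝕜 X]
    (R : X →L[𝕜] LInf 𝕜 I) : Prop :=
  ∀ D : Set I, ℵ_ (k : Ordinal.{0}) ≤ #D → ∃ A : Set I, A ⊆ D ∧
    ∀ x : X, ∃ i ∈ D, 1 / 3 ≤ ‖ind 𝕜 A i - R x i‖

theorem av_of_card (k : ℕ) {X I : Type} [NormedAddCommGroup X] [NormedSpace 𝕜 X]
    (R : X →L[𝕜] LInf 𝕜 I) (h : #(Set.range R) < 2 ^ ℵ_ (k : Ordinal.{0})) : Av k R := by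
  intro D hD
  by_contra hcon
  push Not at hcon
  have h1 : ∀ A : Set D, ∃ x : X, ∀ i ∈ D, ‖ind 𝕜 (Subtype.val '' A) i - R x i‖ < 1 / 3 :=
    fun A => hcon _ (by rintro _ ⟨a, _, rfl⟩; exact a.2)
  choose x hx using h1
  have hinj : Function.Injective (fun A : Set D => (⟨R (x A), ⟨x A, rfl⟩⟩ : Set.range R)) := by
    have key : ∀ A A' : Set D, R (x A) = R (x A') → A ⊆ A' := by
      intro A A' hAA i hi
      by_contra hi'
      have h2 := hx A i.1 i.2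
      have h3 := hx A' i.1 i.2
      rw [← hAA] at h3
      have h4 : ind 𝕜 (Subtype.val '' A) i.1 = 1 := by
        rw [ind_apply, Set.indicator_of_mem (Set.mem_image_of_mem _ hi)]
      have h5 : ind 𝕜 (Subtype.val '' A') i.1 = 0 := by
        rw [ind_apply, Set.indicator_of_notMem]
        rintro ⟨j, hj, hji⟩
        exact hi' (Subtype.ext hji ▸ hj)
      rw [h4] at h2
      rw [h5] at h3
      have h6 : ‖(1 : 𝕜)‖ ≤ ‖1 - R (x A) i.1‖ + ‖0 - R (x A) i.1‖ := by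
        have : (1 : 𝕜) = (1 - R (x A) i.1) - (0 - R (x A) i.1) := by ring
        conv_lhs => rw [this]
        exact norm_sub_le _ _
      rw [norm_one] at h6
      linarith
    intro A A' hAA
    have h7 : R (x A) = R (x A') := congrArg Subtype.val hAA
    exact Set.Subset.antisymm (key A A' h7) (key A' A h7.symm)
  have h8 := mk_le_of_injective hinj
  rw [mk_set] at h8
  have h9 : (2 : Cardinal.{0}) ^ ℵ_ (k : Ordinal.{0}) ≤ 2 ^ #D :=
    power_le_power_left two_ne_zero hD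
  exact absurd (h9.trans h8) (not_le.2 h)

/-- `V k I` sits in `X` (with `#I = ℵ_k`), with an avoiding left inverse `R : X → ℓ_∞(I)`. -/
def Sm (𝕜 : Type) [RCLike 𝕜] (k : ℕ) (X : Type) [NormedAddCommGroup X] [NormedSpace 𝕜 X] :
    Prop :=
  ∃ (I : Type) (T : V 𝕜 k I →L[𝕜] X) (R : X →L[𝕜] LInf 𝕜 I), #I = ℵ_ (k : Ordinal.{0}) ∧
    (∀ v : V 𝕜 k I, R (T v) = v) ∧ Av k R

theorem avoid' {k : ℕ} {X I : Type} [NormedAddCommGroup X] [NormedSpace 𝕜 X]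
    (T : V 𝕜 k I →L[𝕜] X) (R : X →L[𝕜] LInf 𝕜 I) (hRT : ∀ v : V 𝕜 k I, R (T v) = v)
    (hR : Av k R) (D : Set I) (hD : ℵ_ (k : Ordinal.{0}) ≤ #D) :
    ∃ A : Set I, A ⊆ D ∧ ∀ (x : X) (N : Set I), #N < ℵ_ (k : Ordinal.{0}) →
      ∃ i ∈ D, i ∉ N ∧ 1 / 3 ≤ ‖ind 𝕜 A i - R x i‖ := by
  obtain ⟨A, hAD, hA⟩ := hR D hD
  refine ⟨A, hAD, fun x N hN => ?_⟩
  obtain ⟨v, hv1, hv2⟩ := exists_restr N (ind 𝕜 A - R x)
  have hvV : v ∈ V 𝕜 k I := ind_mem_V k N hN v hv2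
  obtain ⟨i, hiD, hi⟩ := hA (x + T ⟨v, hvV⟩)
  rw [map_add, hRT, lp.coeFn_add, Pi.add_apply] at hi
  have hiN : i ∉ N := by
    intro hiN
    have h1 : v i = ind 𝕜 A i - R x i := by
      rw [hv1 i hiN, lp.coeFn_sub, Pi.sub_apply]
    simp only [h1] at hi
    rw [add_sub_cancel, sub_self, norm_zero] at hi
    norm_num at hi
  refine ⟨i, hiD, hiN, ?_⟩
  simp only [hv2 i hiN, add_zero] at hi
  exact hi

theorem ind_split {I : Type} (A : Set I) (i : I) :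
    ind 𝕜 A = ind 𝕜 A i • ind 𝕜 ({i} : Set I) + ind 𝕜 (A \ {i}) := by
  apply lp.ext
  funext t
  rw [lp.coeFn_add, Pi.add_apply, lp.coeFn_smul, Pi.smul_apply, smul_eq_mul, ind_apply, ind_apply,
    ind_apply, ind_apply]
  by_cases ht : t = i
  · subst ht
    simp
  · by_cases htA : t ∈ A
    · have h1 : t ∈ A \ {i} := ⟨htA, ht⟩
      simp [htA, h1, ht]
    · have h1 : t ∉ A \ {i} := fun h => htA h.1
      simp [htA, h1, ht]

theorem norm_ind_le {I : Type} (A : Set I) : ‖ind 𝕜 A‖ ≤ 1 := by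
  apply lp.norm_le_of_forall_le zero_le_one
  intro i
  rw [ind_apply]
  by_cases h : i ∈ A
  · simp [h]
  · simp [h]

theorem noninj {k : ℕ} {X : Type} [NormedAddCommGroup X] [NormedSpace 𝕜 X]
    (hX : Sm 𝕜 k X) : ¬ Inj 𝕜 X := by
  intro hinj
  obtain ⟨I, T, R, hI, hRT, hR⟩ := hX
  have : Infinite I := by
    rw [infinite_iff, hI]
    exact aleph0_le_aleph _
  obtain ⟨T', hT'⟩ := hinj (LInf 𝕜 I) (V 𝕜 k I) (isClosed_V 𝕜 k I) T
  choose e he1 he2 using fun i : I => exists_eval (𝕜 := 𝕜) i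
  let μ : I → LInf 𝕜 I →L[𝕜] 𝕜 := fun i => (e i).comp (R.comp T')
  have hμ : ∀ i f, μ i f = R (T' f) i := fun i f => he1 i _
  obtain ⟨n, hn⟩ := exists_nat_ge (‖R.comp T'‖ / (1 / 4))
  obtain ⟨J, -, hJc, hJ⟩ := disjointify μ (1 / 4) (by norm_num) n Set.univ mk_univ (by
    intro s _ f _ hf
    have h1 : ‖μ s f‖ ≤ ‖e s‖ * ‖R.comp T'‖ * ‖f‖ :=
      ((e s).le_opNorm _).trans (by
        rw [mul_assoc]
        exact mul_le_mul_of_nonneg_left ((R.comp T').le_opNorm _) (norm_nonneg _))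
    have h2 : ‖e s‖ * ‖R.comp T'‖ * ‖f‖ ≤ 1 * ‖R.comp T'‖ * 1 := by
      gcongr
      exact he2 s
    have h3 : ‖R.comp T'‖ ≤ n * (1 / 4) := by
      rwa [div_le_iff₀ (by norm_num)] at hn
    linarith)
  obtain ⟨A, hAJ, hA⟩ := hR J (by rw [hJc, hI])
  obtain ⟨i, hiJ, hi⟩ := hA (T' (ind 𝕜 A))
  have h1 : R (T' (ind 𝕜 ({i} : Set I))) i = 1 := by
    have hiV : ind 𝕜 ({i} : Set I) ∈ V 𝕜 k I := by
      refine ind_mem_V k {i} ?_ _ ?_
      · rw [mk_singleton]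
        exact one_lt_aleph0.trans_le (aleph0_le_aleph _)
      · intro j hj
        rw [ind_apply, Set.indicator_of_notMem hj]
    have h2 := hT' ⟨_, hiV⟩
    simp only at h2
    rw [h2, hRT]
    simp only
    rw [ind_apply, Set.indicator_of_mem (Set.mem_singleton i)]
  have h3 : R (T' (ind 𝕜 A)) i = ind 𝕜 A i + μ i (ind 𝕜 (A \ {i})) := by
    rw [← hμ]
    conv_lhs => rw [ind_split A i]
    rw [map_add, map_smul, hμ, h1, smul_eq_mul, mul_one]
  have h4 := hJ i hiJ (ind 𝕜 (A \ {i})) (by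
    intro j hj
    rw [ind_apply, Set.indicator_of_notMem]
    exact fun h => hj ⟨hAJ h.1, h.2⟩) (norm_ind_le _)
  rw [h3, sub_add_cancel_left, norm_neg] at hi
  linarith

theorem norm_mk_le_of_off {k : ℕ} {I : Type} (y : LInf 𝕜 I) (N : Set I)
    (hN : #N < ℵ_ (k : Ordinal.{0})) (r : ℝ) (hr : 0 ≤ r) (h : ∀ i, i ∉ N → ‖y i‖ ≤ r) :
    ‖(Submodule.Quotient.mk y : LInf 𝕜 I ⧸ V 𝕜 k I)‖ ≤ r := by
  obtain ⟨v, hv1, hv2⟩ := exists_restr N y
  have hvV : v ∈ V 𝕜 k I := ind_mem_V k N hN v hv2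
  have h1 : (Submodule.Quotient.mk y : LInf 𝕜 I ⧸ V 𝕜 k I) = Submodule.Quotient.mk (y - v) := by
    rw [Submodule.Quotient.eq]
    simpa using hvV
  rw [h1]
  refine (Submodule.Quotient.norm_mk_le _ _).trans ?_
  apply lp.norm_le_of_forall_le hr
  intro i
  rw [lp.coeFn_sub, Pi.sub_apply]
  by_cases hi : i ∈ N
  · rw [hv1 i hi, sub_self, norm_zero]
    exact hr
  · rw [hv2 i hi, sub_zero]
    exact h i hi

end Pool.H74.ID
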