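import Pool.Agent.H74.ID.Small

/-! One step of the injective resolution. -/

open Cardinal
open scoped ENNReal

namespace Pool.H74.ID

variable {𝕜 : Type} [RCLike 𝕜]

theorem rosenthal_op {Q : Type} [NormedAddCommGroup Q] [NormedSpace 𝕜 Q] {S : Type} [Infinite S]
    (T : LInf 𝕜 S →L[𝕜] Q) (c : ℝ) (hc : 0 < c) (hlow : ∀ s, c ≤ ‖T (ind 𝕜 {s})‖) :
    2 ^ #S ≤ #Q := by
  classical
  have hdual : ∀ s, ∃ g : Q →L[𝕜] 𝕜, ‖g‖ = 1 ∧ g (T (ind 𝕜 {s})) = ‖T (ind 𝕜 {s})‖ := fun s =>
    exists_dual_vector 𝕜 (T (ind 𝕜 {s})) (by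
      intro h0
      have h1 := hlow s
      rw [h0] at h1
      linarith)
  choose g hg1 hg2 using hdual
  let μ : S → LInf 𝕜 S →L[𝕜] 𝕜 := fun s => (g s).comp T
  obtain ⟨n, hn⟩ := exists_nat_ge (‖T‖ / (c / 2))
  obtain ⟨J, -, hJc, hJ⟩ := disjointify μ (c / 2) (by positivity) n Set.univ mk_univ (by
    intro s _ f _ hf
    have h1 : ‖μ s f‖ ≤ ‖g s‖ * (‖T‖ * ‖f‖) := by
      refine ((g s).le_opNorm _).trans ?_
      exact mul_le_mul_of_nonneg_left (T.le_opNorm _) (norm_nonneg _)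
    rw [hg1, one_mul] at h1
    have h2 : ‖T‖ * ‖f‖ ≤ ‖T‖ := by
      have := mul_le_mul_of_nonneg_left hf (norm_nonneg T)
      linarith
    have h3 : ‖T‖ ≤ n * (c / 2) := by
      rwa [div_le_iff₀ (by positivity)] at hn
    linarith)
  rw [← hJc, ← mk_set]
  have key : ∀ A A' : Set J, T (ind 𝕜 (Subtype.val '' A)) = T (ind 𝕜 (Subtype.val '' A')) →
      A ⊆ A' := by
    intro A A' h s hsA
    by_contra hsA'
    set f : LInf 𝕜 S := ind 𝕜 (Subtype.val '' A \ {s.1}) - ind 𝕜 (Subtype.val '' A') with hf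
    have e1 : ind 𝕜 (Subtype.val '' A : Set S) = ind 𝕜 ({s.1} : Set S) +
        ind 𝕜 (Subtype.val '' A \ {s.1}) := by
      have h1 := ind_split (𝕜 := 𝕜) (Subtype.val '' A : Set S) s.1
      have h2 : ind 𝕜 (Subtype.val '' A : Set S) s.1 = 1 := by
        rw [ind_apply, Set.indicator_of_mem (Set.mem_image_of_mem _ hsA)]
      rw [h2, one_smul] at h1
      exact h1
    have h2 : μ s.1 f = - (‖T (ind 𝕜 {s.1})‖ : 𝕜) := by
      show (g s.1) (T f) = _
      have h3 : T f = - T (ind 𝕜 {s.1}) := by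
        rw [hf, map_sub, ← h, e1, map_add]
        abel
      rw [h3, map_neg, hg2]
    have h4 := hJ s.1 s.2 f (by
      intro i hi
      rw [hf, lp.coeFn_sub, Pi.sub_apply, ind_apply, ind_apply]
      have h5 : i ∉ (Subtype.val '' A \ {s.1} : Set S) := by
        rintro ⟨⟨t, _, rfl⟩, ht⟩
        exact hi ⟨t.2, ht⟩
      have h6 : i ∉ (Subtype.val '' A' : Set S) := by
        rintro ⟨t, ht, rfl⟩
        refine hi ⟨t.2, fun h' => hsA' ?_⟩
        have : t = s := Subtype.ext h'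
        rwa [this] at ht
      rw [Set.indicator_of_notMem h5, Set.indicator_of_notMem h6, sub_zero]) (by
      apply lp.norm_le_of_forall_le (by norm_num)
      intro i
      rw [hf, lp.coeFn_sub, Pi.sub_apply, ind_apply, ind_apply]
      simp only [Set.indicator_apply]
      split_ifs <;> simp)
    rw [h2, norm_neg, RCLike.norm_ofReal, abs_of_nonneg (norm_nonneg _)] at h4
    have := hlow s.1
    linarith
  refine mk_le_of_injective (f := fun A : Set J => T (ind 𝕜 (Subtype.val '' A))) ?_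
  intro A A' h
  exact Set.Subset.antisymm (key A A' h) (key A' A h.symm)

theorem small_biUnion {k : ℕ} {ι I : Type} (s : Finset ι) (f : ι → Set I)
    (h : ∀ t ∈ s, #(f t) < ℵ_ (k : Ordinal.{0})) :
    #(⋃ t ∈ s, f t : Set I) < ℵ_ (k : Ordinal.{0}) := by
  classical
  induction s using Finset.induction_on with
  | empty =>
    have : (⋃ t ∈ (∅ : Finset ι), f t : Set I) = ∅ := by simp
    rw [this, mk_eq_zero]
    exact aleph_pos _
  | insert a s ha ih =>
    rw [Finset.set_biUnion_insert]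
    exact (mk_union_le _ _).trans_lt (add_lt_of_lt (aleph0_le_aleph _)
      (h a (Finset.mem_insert_self _ _)) (ih fun t ht => h t (Finset.mem_insert_of_mem ht)))

theorem le_norm_mk_closure {X Y : Type} [NormedAddCommGroup X] [NormedSpace 𝕜 X]
    [NormedAddCommGroup Y] [NormedSpace 𝕜 Y] (R : X →L[𝕜] Y) (y : Y) (r : ℝ)
    (h : ∀ x, r ≤ ‖y - R x‖) :
    r ≤ ‖(Submodule.Quotient.mk y : Y ⧸ (LinearMap.range R.toLinearMap).topologicalClosure)‖ := by
  apply le_norm_mk
  intro m hm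
  have h1 : IsClosed {m : Y | r ≤ ‖y - m‖} :=
    isClosed_le continuous_const (by fun_prop)
  have h2 : closure ((LinearMap.range R.toLinearMap : Submodule 𝕜 Y) : Set Y) ⊆
      {m : Y | r ≤ ‖y - m‖} := by
    apply closure_minimal _ h1
    rintro _ ⟨x, rfl⟩
    exact h x
  exact h2 hm

/-- One step: from `Sm k X` to a cosyzygy of `X`. -/
theorem sm_step {k : ℕ} {X : Type} [NormedAddCommGroup X] [NormedSpace 𝕜 X] [CompleteSpace X]
    (hX : Sm 𝕜 k X) :
    ∃ (G S : Type) (_ : NormedAddCommGroup G) (_ : NormedSpace 𝕜 G) (_ : CompleteSpace G)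
      (_ : NormedAddCommGroup S) (_ : NormedSpace 𝕜 S) (_ : CompleteSpace S)
      (j : X →L[𝕜] G) (q : G →L[𝕜] S), Inj 𝕜 G ∧ SES j q ∧
      ((2 : Cardinal.{0}) ^ ℵ_ (k : Ordinal.{0}) < 2 ^ ℵ_ ((k + 1 : ℕ) : Ordinal.{0}) →
        Sm 𝕜 (k + 1) S) ∧
      (∀ μ : Cardinal.{0}, (∀ I : Type, #I = ℵ_ (k : Ordinal.{0}) →
        HasAD (ℵ_ (k : Ordinal.{0})) μ I) → (2 : Cardinal.{0}) ^ ℵ_ (k : Ordinal.{0}) < 2 ^ μ →
        ¬ Inj 𝕜 S) := by
  classical
  obtain ⟨I, T, R, hI, hRT, hR⟩ := hX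
  set C : Submodule 𝕜 (LInf 𝕜 I) := (LinearMap.range R.toLinearMap).topologicalClosure with hC
  have hCc : IsClosed (C : Set (LInf 𝕜 I)) := Submodule.isClosed_topologicalClosure _
  obtain ⟨j3, hj3⟩ := exists_embed (𝕜 := 𝕜) X
  let j : X →L[𝕜] LInf 𝕜 I × LInf 𝕜 X := R.prod j3
  have hj : ∀ x, 1 * ‖x‖ ≤ ‖j x‖ := fun x => by
    rw [one_mul]
    exact (hj3 x).trans (le_max_right ‖R x‖ ‖j3 x‖)
  obtain ⟨hji, hjc⟩ := isClosed_range_of_bound j 1 one_pos hj
  let M : Submodule 𝕜 (LInf 𝕜 I × LInf 𝕜 X) := LinearMap.range j.toLinearMap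
  have hM : IsClosed (M : Set (LInf 𝕜 I × LInf 𝕜 X)) := hjc
  have hs : SES j M.mkQL := ses_quot j 1 one_pos hj M (fun y => Iff.rfl)
  obtain ⟨E, hE⟩ := inj_LInf (𝕜 := 𝕜) X (LInf 𝕜 I) (V 𝕜 k I) (isClosed_V 𝕜 k I) (j3.comp T)
  have hs0 : SES (V 𝕜 k I).subtypeL (V 𝕜 k I).mkQL := by
    refine ses_quot (V 𝕜 k I).subtypeL 1 one_pos (fun x => by rw [one_mul]; rfl) (V 𝕜 k I)
      (fun y => ?_)
    exact ⟨fun hy => ⟨⟨y, hy⟩, rfl⟩, fun ⟨u, hu⟩ => hu ▸ u.2⟩
  obtain ⟨W, hW⟩ := hs0.desc (M.mkQL.comp ((ContinuousLinearMap.id 𝕜 (LInf 𝕜 I)).prod E)) (by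
    intro v
    have h1 : (((v : LInf 𝕜 I), E v) : LInf 𝕜 I × LInf 𝕜 X) = j (T v) := by
      have h2 : j (T v) = (R (T v), j3 (T v)) := rfl
      rw [h2, hRT, hE]
      rfl
    have h3 : M.mkQL (((v : LInf 𝕜 I), E v) : LInf 𝕜 I × LInf 𝕜 X) = 0 := by
      rw [h1]
      exact hs.zero _
    exact h3)
  obtain ⟨π, hπ⟩ := hs.desc (C.mkQL.comp (ContinuousLinearMap.fst 𝕜 (LInf 𝕜 I) (LInf 𝕜 X))) (by
    intro x
    exact (Submodule.Quotient.mk_eq_zero C).2 (Submodule.le_topologicalClosure _ ⟨x, rfl⟩))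
  have hπW : ∀ l : LInf 𝕜 I, π (W (Submodule.Quotient.mk l)) = Submodule.Quotient.mk l := by
    intro l
    have h1 : W (Submodule.Quotient.mk l) = M.mkQL ((l, E l) : LInf 𝕜 I × LInf 𝕜 X) := hW l
    rw [h1, hπ]
    rfl
  have hQcard : #(LInf 𝕜 I ⧸ C) ≤ 2 ^ ℵ_ (k : Ordinal.{0}) :=
    (mk_le_of_surjective (Submodule.Quotient.mk_surjective C)).trans
      (mk_LInf_le I _ hI.le (aleph0_le_aleph _))
  refine ⟨LInf 𝕜 I × LInf 𝕜 X, _ ⧸ M, inferInstance, inferInstance, inferInstance, inferInstance,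
    inferInstance, inferInstance, j, M.mkQL, (inj_LInf I).prod (inj_LInf X), hs, ?_, ?_⟩
  · intro hlt
    obtain ⟨L, _, hL, hbd, F, hF1, hF2, hF3⟩ := exists_coherent k I hI
    have hη0 : ∀ ξ : L, ∃ η, ξ < η := by
      intro ξ
      obtain ⟨η, hη⟩ := hbd {ξ} (by
        rw [mk_singleton]
        exact (one_lt_aleph0.trans_le (aleph0_le_aleph _)).le)
      exact ⟨η, hη ξ rfl⟩
    choose η0 hη0 using hη0
    let D : L → Set I := fun ξ => {b | F (η0 ξ) b = some ξ}
    have hD : ∀ ξ, ℵ_ (k : Ordinal.{0}) ≤ #(D ξ) := fun ξ => hF2 _ _ (hη0 ξ)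
    choose A hAD hA using fun ξ => avoid' T R hRT hR (D ξ) (hD ξ)
    let F' : L → I → Option L := fun η b => (F η b).filter (fun s => b ∈ A s)
    have hF3' : ∀ η η', η < η' →
        #{b : I // F' η b ≠ (F' η' b).filter (fun ξ => ξ < η)} < ℵ_ (k : Ordinal.{0}) := by
      intro η η' hηη
      refine (mk_le_mk_of_subset (?_ : {b : I | F' η b ≠ (F' η' b).filter (fun ξ => ξ < η)} ⊆
        {b | F η b ≠ (F η' b).filter (fun ξ => ξ < η)})).trans_lt (hF3 η η' hηη)
      intro b hb hcon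
      apply hb
      simp only [F', hcon]
      rw [Option.filter_filter, Option.filter_filter]
      congr 1
      funext s
      rw [Bool.and_comm]
    obtain ⟨Φ, hΦ⟩ := exists_Phi (𝕜 := 𝕜) k hbd F' hF3'
    let TS : V 𝕜 (k + 1) L →L[𝕜] (_ ⧸ M) := W.comp Φ
    have hlow : ∀ g : V 𝕜 (k + 1) L, 1 / 3 * ‖g‖ ≤ ‖π (TS g)‖ := by
      intro g
      obtain ⟨η, hη⟩ := hbd _ (mk_supp_le (g : LInf 𝕜 L) g.2)
      obtain ⟨Tη, hTη⟩ := exists_cmp (𝕜 := 𝕜) (F' η)
      set y := Tη (g : LInf 𝕜 L) with hy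
      have h1 : Φ g = Submodule.Quotient.mk y := hΦ g η hη y (fun b => hTη _ b)
      have h2 : π (TS g) = Submodule.Quotient.mk y := by
        show π (W (Φ g)) = _
        rw [h1, hπW]
      rw [h2]
      apply le_norm_mk_closure
      intro x
      rw [← le_div_iff₀' (by norm_num)]
      have key : ‖(g : LInf 𝕜 L)‖ ≤ ‖y - R x‖ / (1 / 3) := ?_
      · exact key
      refine lp.norm_le_of_forall_le (by positivity) fun ξ => ?_
      by_cases hξ : (g : LInf 𝕜 L) ξ = 0
      · rw [hξ, norm_zero]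
        positivity
      rw [le_div_iff₀ (by norm_num)]
      have hlt' := hη ξ hξ
      set c := (g : LInf 𝕜 L) ξ with hc
      obtain ⟨i, hiD, hiN, hi⟩ := hA ξ (c⁻¹ • x) {b | b ∈ D ξ ∧ F η b ≠ some ξ} (by
        rcases lt_trichotomy η (η0 ξ) with h | h | h
        · refine (mk_le_mk_of_subset ?_).trans_lt (hF3 η (η0 ξ) h)
          rintro b ⟨hb1, hb2⟩ hcon
          apply hb2
          have hb1' : F (η0 ξ) b = some ξ := hb1
          rw [hcon, hb1']
          simp [Option.filter, hlt']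
        · rw [h]
          have : {b : I | b ∈ D ξ ∧ F (η0 ξ) b ≠ some ξ} = ∅ := by
            ext b
            simp only [Set.mem_ofPred_eq, Set.mem_empty_iff_false, iff_false, not_and, not_not]
            exact fun h => h
          rw [this, mk_eq_zero]
          exact aleph_pos _
        · refine (mk_le_mk_of_subset ?_).trans_lt (hF3 (η0 ξ) η h)
          rintro b ⟨hb1, hb2⟩ hcon
          apply hb2
          have hb1' : F (η0 ξ) b = some ξ := hb1
          rw [hb1'] at hcon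
          cases hFb : F η b with
          | none =>
            rw [hFb] at hcon
            simp at hcon
          | some s =>
            rw [hFb] at hcon
            by_cases hs : s < η0 ξ
            · simp [Option.filter, hs] at hcon
              rw [hcon]
            · simp [Option.filter, hs] at hcon)
      have hFi : F η i = some ξ := by
        by_contra hcon
        exact hiN ⟨hiD, hcon⟩
      have hyi : y i = c * ind 𝕜 (A ξ) i := by
        rw [hy, hTη]
        simp only [F', hFi]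
        by_cases hiA : i ∈ A ξ
        · rw [ind_apply, Set.indicator_of_mem hiA]
          simp [Option.filter, hiA, hc]
        · rw [ind_apply, Set.indicator_of_notMem hiA]
          simp [Option.filter, hiA]
      have h5 : (y - R x) i = c * (ind 𝕜 (A ξ) i - R (c⁻¹ • x) i) := by
        rw [lp.coeFn_sub, Pi.sub_apply, hyi, map_smul, lp.coeFn_smul, Pi.smul_apply, smul_eq_mul,
          mul_sub, mul_inv_cancel_left₀ hξ]
      have h6 : ‖(y - R x) i‖ ≤ ‖y - R x‖ := lp.norm_apply_le_norm (by simp) _ i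
      rw [h5, norm_mul] at h6
      have h7 : ‖c‖ * (1 / 3) ≤ ‖c‖ * ‖ind 𝕜 (A ξ) i - R (c⁻¹ • x) i‖ :=
        mul_le_mul_of_nonneg_left hi (norm_nonneg _)
      linarith
    have : CompleteSpace (V 𝕜 (k + 1) L) := (isClosed_V 𝕜 (k + 1) L).completeSpace_coe
    obtain ⟨hTi, hTc⟩ := isClosed_range_of_bound (π.comp TS) (1 / 3) (by norm_num) hlow
    obtain ⟨RQ, hRQ⟩ := (inj_LInf (𝕜 := 𝕜) L).ext (π.comp TS) hTi hTc (V 𝕜 (k + 1) L).subtypeL
    refine ⟨L, TS, RQ.comp π, hL, fun v => hRQ v, ?_⟩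
    apply av_of_card
    refine lt_of_le_of_lt ?_ hlt
    have hsub : Set.range (RQ.comp π) ⊆ Set.range RQ := by
      rintro _ ⟨x, rfl⟩
      exact ⟨π x, rfl⟩
    exact (mk_le_mk_of_subset hsub).trans (mk_range_le.trans hQcard)
  · intro μ hAD hlt hinj
    obtain ⟨Λ, B, hΛ, hB1, hB2⟩ := hAD I hI
    choose A hAB hA using fun s => avoid' T R hRT hR (B s) (hB1 s)
    have hinf : Infinite Λ := by
      rw [infinite_iff, hΛ]
      by_contra hcon
      push Not at hcon
      have h1 : (2 : Cardinal.{0}) ^ μ < ℵ₀ := power_lt_aleph0 (by norm_num) hcon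
      have h2 : ℵ₀ ≤ (2 : Cardinal.{0}) ^ ℵ_ (k : Ordinal.{0}) :=
        (aleph0_le_aleph _).trans (cantor _).le
      exact absurd (h2.trans_lt (hlt.trans h1)) (lt_irrefl _)
    obtain ⟨U, hU⟩ := exists_operator hinj
      (fun s : Λ => W (Submodule.Quotient.mk (ind 𝕜 (A s)))) (‖W‖ * 1) (by
        intro s a ha
        have h1 : ∑ t ∈ s, a t • W (Submodule.Quotient.mk (ind 𝕜 (A t))) =
            W (Submodule.Quotient.mk (∑ t ∈ s, a t • ind 𝕜 (A t))) := by
          have h2 : (Submodule.Quotient.mk (∑ t ∈ s, a t • ind 𝕜 (A t)) : LInf 𝕜 I ⧸ V 𝕜 k I) =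
            (V 𝕜 k I).mkQ (∑ t ∈ s, a t • ind 𝕜 (A t)) := rfl
          rw [h2, map_sum, map_sum]
          refine Finset.sum_congr rfl fun t _ => ?_
          rw [map_smul, map_smul]
          rfl
        rw [h1]
        refine (W.le_opNorm _).trans (mul_le_mul_of_nonneg_left ?_ (norm_nonneg _))
        refine norm_mk_le_of_off _
          (⋃ p ∈ (s ×ˢ s).filter (fun p => p.1 ≠ p.2), (B p.1 ∩ B p.2)) ?_ 1 zero_le_one ?_
        · apply small_biUnion
          intro p hp
          exact hB2 _ _ (Finset.mem_filter.1 hp).2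
        · intro i hi
          simp only [Set.mem_iUnion, Finset.mem_filter, Finset.mem_product, not_exists] at hi
          rw [lp.coeFn_sum, Finset.sum_apply]
          have h4 : ∀ t, (a t • ind 𝕜 (A t)) i = a t * ind 𝕜 (A t) i := by
            intro t
            rw [lp.coeFn_smul, Pi.smul_apply, smul_eq_mul]
          by_cases hex : ∃ t ∈ s, i ∈ A t
          · obtain ⟨t, ht, hit⟩ := hex
            rw [Finset.sum_eq_single t]
            · rw [h4, norm_mul, ind_apply, Set.indicator_of_mem hit, norm_one, mul_one]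
              exact ha t
            · intro t' ht' hne
              rw [h4, ind_apply, Set.indicator_of_notMem, mul_zero]
              intro hit'
              exact hi (t', t) ⟨⟨ht', ht⟩, hne⟩ ⟨hAB _ hit', hAB _ hit⟩
            · intro h
              exact absurd ht h
          · push Not at hex
            rw [Finset.sum_eq_zero]
            · simp
            · intro t ht
              rw [h4, ind_apply, Set.indicator_of_notMem (hex t ht), mul_zero])
    have h3 := rosenthal_op (π.comp U) (1 / 3) (by norm_num) (by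
      intro s
      show 1 / 3 ≤ ‖π (U (ind 𝕜 {s}))‖
      rw [hU, hπW]
      apply le_norm_mk_closure
      intro x
      obtain ⟨i, _, _, hi⟩ := hA s x ∅ (by rw [mk_eq_zero]; exact aleph_pos _)
      refine hi.trans ?_
      have h6 : ‖(ind 𝕜 (A s) - R x) i‖ ≤ ‖ind 𝕜 (A s) - R x‖ :=
        lp.norm_apply_le_norm (by simp) _ i
      rw [lp.coeFn_sub, Pi.sub_apply] at h6
      exact h6)
    rw [hΛ] at h3
    exact absurd (h3.trans hQcard) (not_le.2 hlt)

end Pool.H74.ID
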